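import Mathlib

set_option autoImplicit false

namespace Pool.Agent.Helper950.BG

/-- relations of the Artin braid group on `n` strands, generators `σ_i`, `i : Fin (n - 1)` -/
def braidRels (n : ℕ) : Set (FreeGroup (Fin (n - 1))) :=
  {r | ∃ i j : Fin (n - 1), (j : ℕ) = i + 1 ∧
      r = FreeGroup.of i * FreeGroup.of j * FreeGroup.of i *
        (FreeGroup.of j * FreeGroup.of i * FreeGroup.of j)⁻¹} ∪
  {r | ∃ i j : Fin (n - 1), (i : ℕ) + 2 ≤ j ∧
      r = FreeGroup.of i * FreeGroup.of j * (FreeGroup.of j * FreeGroup.of i)⁻¹}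

/-- the Artin braid group `B_n` -/
abbrev BraidGroup (n : ℕ) : Type := PresentedGroup (braidRels n)

/-- the transposition `(i, i+1)` of `Fin n` -/
def tr (n : ℕ) (i : Fin (n - 1)) : Equiv.Perm (Fin n) :=
  Equiv.swap ⟨i, by omega⟩ ⟨i + 1, by omega⟩

theorem tr_rels_braid {α : Type*} [DecidableEq α] (a b c : α) (h1 : a ≠ b) (h2 : b ≠ c)
    (h3 : a ≠ c) :
    Equiv.swap a b * Equiv.swap b c * Equiv.swap a b =
      Equiv.swap b c * Equiv.swap a b * Equiv.swap b c := by
  rw [Equiv.swap_mul_swap_mul_swap h1 h3]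
  rw [Equiv.swap_comm a b, Equiv.swap_comm b c, Equiv.swap_mul_swap_mul_swap h2.symm h3.symm]
  exact Equiv.swap_comm _ _

theorem tr_rels (n : ℕ) : ∀ r ∈ braidRels n, FreeGroup.lift (tr n) r = 1 := by
  rintro r (⟨i, j, hij, rfl⟩ | ⟨i, j, hij, rfl⟩)
  · rw [map_mul, map_inv, mul_inv_eq_one]
    simp only [map_mul, FreeGroup.lift_apply_of]
    unfold tr
    have hi := i.2
    have hj := j.2
    have hb : (⟨(j : ℕ), by omega⟩ : Fin n) = ⟨(i : ℕ) + 1, by omega⟩ := by
      apply Fin.ext
      exact hij
    rw [hb]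
    have h1 : (⟨(i : ℕ), by omega⟩ : Fin n) ≠ ⟨(i : ℕ) + 1, by omega⟩ := by
      intro h
      have := Fin.ext_iff.1 h
      simp at this
    have h2 : (⟨(i : ℕ) + 1, by omega⟩ : Fin n) ≠ ⟨(j : ℕ) + 1, by omega⟩ := by
      intro h
      have := Fin.ext_iff.1 h
      simp at this
      omega
    have h3 : (⟨(i : ℕ), by omega⟩ : Fin n) ≠ ⟨(j : ℕ) + 1, by omega⟩ := by
      intro h
      have := Fin.ext_iff.1 h
      simp at this
      omega
    exact tr_rels_braid _ _ _ h1 h2 h3
  · rw [map_mul, map_inv, mul_inv_eq_one]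
    simp only [map_mul, FreeGroup.lift_apply_of]
    unfold tr
    have hi := i.2
    have hj := j.2
    apply Equiv.Perm.Disjoint.commute
    intro x
    by_cases hx : (x : ℕ) = i ∨ (x : ℕ) = i + 1
    · right
      apply Equiv.swap_apply_of_ne_of_ne
      · intro h
        have := Fin.ext_iff.1 h
        simp at this
        omega
      · intro h
        have := Fin.ext_iff.1 h
        simp at this
        omega
    · left
      apply Equiv.swap_apply_of_ne_of_ne
      · intro h
        have := Fin.ext_iff.1 h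
        simp at this
        omega
      · intro h
        have := Fin.ext_iff.1 h
        simp at this
        omega

/-- the surjection `B_n → S_n`, `σ_i ↦ (i, i+1)` -/
def toPerm (n : ℕ) : BraidGroup n →* Equiv.Perm (Fin n) := PresentedGroup.toGroup (tr_rels n)

/-- the pure braid group `P_n` -/
def PureBraidGroup (n : ℕ) : Subgroup (BraidGroup n) := (toPerm n).ker

/-- generators, trivial outside the range -/
def sg (n i : ℕ) : BraidGroup n := if h : i < n - 1 then PresentedGroup.of ⟨i, h⟩ else 1

theorem sg_far (n i j : ℕ) (h : i + 2 ≤ j) : Commute (sg n i) (sg n j) := by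
  unfold sg
  by_cases hj : j < n - 1
  · have hi : i < n - 1 := by omega
    rw [dif_pos hi, dif_pos hj]
    have hr : FreeGroup.of (⟨i, hi⟩ : Fin (n - 1)) * FreeGroup.of ⟨j, hj⟩ *
        (FreeGroup.of ⟨j, hj⟩ * FreeGroup.of ⟨i, hi⟩)⁻¹ ∈ braidRels n :=
      Or.inr ⟨⟨i, hi⟩, ⟨j, hj⟩, h, rfl⟩
    have h1 := PresentedGroup.one_of_mem hr
    rw [map_mul, map_inv, mul_inv_eq_one, map_mul, map_mul] at h1
    exact h1
  · rw [dif_neg hj]
    exact Commute.one_right _

theorem sg_braid (n i : ℕ) (h : i + 1 < n - 1) :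
    sg n i * sg n (i + 1) * sg n i = sg n (i + 1) * sg n i * sg n (i + 1) := by
  unfold sg
  have hi : i < n - 1 := by omega
  rw [dif_pos hi, dif_pos h]
  have hr : FreeGroup.of (⟨i, hi⟩ : Fin (n - 1)) * FreeGroup.of ⟨i + 1, h⟩ * FreeGroup.of ⟨i, hi⟩ *
      (FreeGroup.of ⟨i + 1, h⟩ * FreeGroup.of ⟨i, hi⟩ * FreeGroup.of ⟨i + 1, h⟩)⁻¹ ∈ braidRels n :=
    Or.inl ⟨⟨i, hi⟩, ⟨i + 1, h⟩, rfl, rfl⟩
  have h1 := PresentedGroup.one_of_mem hr
  rw [map_mul, map_inv, mul_inv_eq_one] at h1
  simp only [map_mul] at h1
  exact h1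


/-- strand `m` goes around strands `0, …, m-1` -/
def jm (n : ℕ) : ℕ → BraidGroup n
  | 0 => 1
  | m + 1 => sg n m * jm n m * sg n m

theorem jm_far (n m l : ℕ) (h : m + 1 ≤ l) : Commute (jm n m) (sg n l) := by
  induction m with
  | zero => exact Commute.one_left _
  | succ m ih =>
    have h1 : Commute (sg n m) (sg n l) := sg_far n m l (by omega)
    have h2 := ih (by omega)
    exact (h1.mul_left h2).mul_left h1

theorem jm_comm (n : ℕ) : ∀ m l : ℕ, m ≤ n - 1 → l + 2 ≤ m → Commute (jm n m) (sg n l) := by
  intro m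
  induction m with
  | zero => intro l _ h; omega
  | succ m ih =>
    intro l hm hl
    by_cases h : l + 2 ≤ m
    · have h1 : Commute (sg n m) (sg n l) := (sg_far n l m h).symm
      have h2 := ih l (by omega) h
      exact (h1.mul_left h2).mul_left h1
    · have hml : m = l + 1 := by omega
      subst hml
      have hX : Commute (jm n l) (sg n (l + 1)) := jm_far n l (l + 1) le_rfl
      have hb := sg_braid n l (by omega)
      obtain ⟨a, ha⟩ : ∃ a, a = sg n l := ⟨_, rfl⟩
      obtain ⟨b, hb'⟩ : ∃ b, b = sg n (l + 1) := ⟨_, rfl⟩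
      obtain ⟨X, hX'⟩ : ∃ X, X = jm n l := ⟨_, rfl⟩
      have e : jm n (l + 1 + 1) = b * (a * X * a) * b := by
        rw [ha, hb', hX']; rfl
      rw [e, ← ha]
      rw [← ha, ← hb'] at hb
      rw [← hX', ← hb'] at hX
      have hX2 : X * b = b * X := hX
      show b * (a * X * a) * b * a = a * (b * (a * X * a) * b)
      calc b * (a * X * a) * b * a = b * a * X * (a * b * a) := by group
        _ = b * a * X * (b * a * b) := by rw [hb]
        _ = b * a * (X * b) * a * b := by group
        _ = b * a * (b * X) * a * b := by rw [hX2]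
        _ = (b * a * b) * X * a * b := by group
        _ = (a * b * a) * X * a * b := by rw [hb]
        _ = a * (b * (a * X * a) * b) := by group


theorem toPerm_sg_sq (n i : ℕ) : toPerm n (sg n i) * toPerm n (sg n i) = 1 := by
  unfold sg
  split_ifs with h
  · have h1 : toPerm n (PresentedGroup.of ⟨i, h⟩) = tr n ⟨i, h⟩ := by
      unfold toPerm
      exact PresentedGroup.toGroup.of (tr_rels n)
    rw [h1]
    unfold tr
    exact Equiv.swap_mul_self _ _
  · simp

theorem jm_pure (n m : ℕ) : jm n m ∈ PureBraidGroup n := by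
  induction m with
  | zero => exact Subgroup.one_mem _
  | succ m ih =>
    have h1 : toPerm n (jm n m) = 1 := MonoidHom.mem_ker.1 ih
    refine MonoidHom.mem_ker.2 ?_
    show toPerm n (sg n m * jm n m * sg n m) = 1
    rw [map_mul, map_mul, h1, mul_one, toPerm_sg_sq]

theorem sq_pure (n m : ℕ) : sg n m ^ 2 ∈ PureBraidGroup n := by
  refine MonoidHom.mem_ker.2 ?_
  rw [pow_two, map_mul, toPerm_sg_sq]


/-! the action on coloured tuples -/

/-- the quandle operation with a trivial element `none` -/
def op : Option (ZMod 5) → Option (ZMod 5) → Option (ZMod 5)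
  | some a, some b => some (2 * a - b)
  | none, y => y
  | some _, none => none

theorem op_invol (x y : Option (ZMod 5)) : op x (op x y) = y := by
  revert x y; decide

theorem op_dist (x y z : Option (ZMod 5)) : op x (op y z) = op (op x y) (op x z) := by
  revert x y z; decide

/-- `σ_i` on tuples: `(x, y) ↦ (x ⊳ y, x)` at the positions `i, i+1` -/
def act (i : ℕ) : Equiv.Perm (ℕ → Option (ZMod 5)) where
  toFun t k := if k = i then op (t i) (t (i + 1)) else if k = i + 1 then t i else t k
  invFun t k := if k = i then t (i + 1) else if k = i + 1 then op (t (i + 1)) (t i) else t k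
  left_inv := by
    intro t
    funext k
    by_cases h1 : k = i
    · subst h1; simp
    · by_cases h2 : k = i + 1
      · subst h2; simp [op_invol]
      · simp [h1, h2]
  right_inv := by
    intro t
    funext k
    by_cases h1 : k = i
    · subst h1; simp [op_invol]
    · by_cases h2 : k = i + 1
      · subst h2; simp
      · simp [h1, h2]

theorem act_apply (i : ℕ) (t : ℕ → Option (ZMod 5)) (k : ℕ) :
    act i t k = if k = i then op (t i) (t (i + 1)) else if k = i + 1 then t i else t k := rfl

theorem act_braid (i : ℕ) : act i * act (i + 1) * act i = act (i + 1) * act i * act (i + 1) := by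
  apply Equiv.ext
  intro t
  funext k
  show act i (act (i + 1) (act i t)) k = act (i + 1) (act i (act (i + 1) t)) k
  have e1 : (i + 1 + 1 = i) = False := by simp only [eq_iff_iff, iff_false]; omega
  have e2 : (i + 1 = i) = False := by simp
  have e3 : (i = i + 1) = False := by simp
  have e4 : (i = i + 1 + 1) = False := by simp; omega
  have e5 : (i + 1 = i + 1 + 1) = False := by simp
  have e6 : (i + 1 + 1 = i + 1) = False := by simp
  by_cases h1 : k = i
  · subst h1
    simp only [act_apply, if_true, if_false, e1, e2, e3, e4, e5, e6]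
    exact (op_dist _ _ _).symm
  · by_cases h2 : k = i + 1
    · subst h2
      simp only [act_apply, if_true, if_false, e1, e2, e3, e4, e5, e6]
    · by_cases h3 : k = i + 1 + 1
      · subst h3
        simp only [act_apply, if_true, if_false, e1, e2, e3, e4, e5, e6]
      · simp only [act_apply, h1, h2, h3, if_false]

theorem act_far (i j : ℕ) (h : i + 2 ≤ j) : act i * act j = act j * act i := by
  apply Equiv.ext
  intro t
  funext k
  show act i (act j t) k = act j (act i t) k
  have e1 : (i = j) = False := by simp; omega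
  have e2 : (i = j + 1) = False := by simp; omega
  have e3 : (i + 1 = j) = False := by simp; omega
  have e4 : (i + 1 = j + 1) = False := by simp; omega
  have e5 : (j = i) = False := by simp; omega
  have e6 : (j = i + 1) = False := by simp; omega
  have e7 : (j + 1 = i) = False := by simp; omega
  have e8 : (j + 1 = i + 1) = False := by simp; omega
  by_cases h1 : k = i
  · subst h1
    simp only [act_apply, if_true, if_false, e1, e2, e3, e4, e5, e6, e7, e8]
  · by_cases h2 : k = i + 1
    · subst h2
      simp only [act_apply, if_true, if_false, e1, e2, e3, e4, e5, e6, e7, e8]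
    · by_cases h3 : k = j
      · subst h3
        simp only [act_apply, if_true, if_false, e1, e2, e3, e4, e5, e6, e7, e8]
      · by_cases h4 : k = j + 1
        · subst h4
          simp only [act_apply, if_true, if_false, e1, e2, e3, e4, e5, e6, e7, e8]
        · simp only [act_apply, h1, h2, h3, h4, if_false]

theorem act_rels (n : ℕ) : ∀ r ∈ braidRels n, FreeGroup.lift (fun i : Fin (n - 1) => act i) r = 1 := by
  intro r hr
  rcases hr with ⟨i, j, h, rfl⟩ | ⟨i, j, h, rfl⟩
  · have hb := act_braid (i : ℕ)
    simp only [map_mul, map_inv, FreeGroup.lift_apply_of]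
    rw [mul_inv_eq_one, h]
    exact hb
  · have hb := act_far (i : ℕ) (j : ℕ) h
    simp only [map_mul, map_inv, FreeGroup.lift_apply_of]
    rw [mul_inv_eq_one]
    exact hb

/-- the action of `B_n` on tuples -/
def actHom (n : ℕ) : BraidGroup n →* Equiv.Perm (ℕ → Option (ZMod 5)) :=
  PresentedGroup.toGroup (act_rels n)

/-- the tuple `(1, …, 1, a, b, c, 1, …)` with `a` at position `m - 1` -/
def tup (m : ℕ) (v : ZMod 5 × ZMod 5 × ZMod 5) : ℕ → Option (ZMod 5) :=
  fun k => if k + 1 = m then some v.1 else if k = m then some v.2.1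
    else if k = m + 1 then some v.2.2 else none

/-- `σ_1²` on triples -/
def X (v : ZMod 5 × ZMod 5 × ZMod 5) : ZMod 5 × ZMod 5 × ZMod 5 :=
  (3 * v.1 - 2 * v.2.1, 2 * v.1 - v.2.1, v.2.2)

/-- `σ_2²` on triples -/
def Y (v : ZMod 5 × ZMod 5 × ZMod 5) : ZMod 5 × ZMod 5 × ZMod 5 :=
  (v.1, 3 * v.2.1 - 2 * v.2.2, 2 * v.2.1 - v.2.2)

theorem actHom_sg (n m : ℕ) (hm : m < n - 1) : actHom n (sg n m) = act m := by
  unfold sg actHom
  rw [dif_pos hm]
  exact PresentedGroup.toGroup.of (act_rels n)

theorem op_some (a b : ZMod 5) : op (some a) (some b) = some (2 * a - b) := rfl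

theorem op_none_left (y : Option (ZMod 5)) : op none y = y := by cases y <;> rfl

theorem op_none_right (y : Option (ZMod 5)) : op y none = none := by cases y <;> rfl

theorem act_sq (n m : ℕ) (hm : m < n - 1) (v : ZMod 5 × ZMod 5 × ZMod 5) :
    actHom n (sg n m ^ 2) (tup m v) = tup m (Y v) := by
  obtain ⟨a, b, c⟩ := v
  rw [map_pow, actHom_sg n m hm, pow_two, Equiv.Perm.mul_apply]
  funext k
  by_cases h1 : k = m
  · subst h1
    have e : ¬ k + 1 + 1 = k := by omega
    simp [act_apply, tup, Y, op_some, e]
    ring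
  · by_cases h2 : k = m + 1
    · subst h2
      have e : ¬ m + 1 + 1 = m := by omega
      simp [act_apply, tup, Y, op_some, e]
    · by_cases h3 : k + 1 = m
      · have h4 : k ≠ m := h1
        simp [act_apply, tup, Y, op_some, h1, h2, h3]
      · simp [act_apply, tup, Y, op_some, h1, h2, h3]

theorem jm_fix (n : ℕ) : ∀ m : ℕ, m ≤ n - 1 → ∀ t : ℕ → Option (ZMod 5),
    (∀ i, i < m → t i = none) → actHom n (jm n m) t = t := by
  intro m
  induction m with
  | zero => intro _ t _; simp [jm]
  | succ m ih =>
    intro hm t ht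
    have hm' : m < n - 1 := by omega
    have htm : t m = none := ht m (by omega)
    rw [jm, map_mul, map_mul, actHom_sg n m hm', Equiv.Perm.mul_apply, Equiv.Perm.mul_apply]
    rw [ih (by omega) (act m t) (by
      intro i hi
      rw [act_apply, if_neg (by omega), if_neg (by omega)]
      exact ht i (by omega))]
    funext k
    by_cases h1 : k = m
    · subst h1
      simp [act_apply, htm, op_none_left, op_none_right]
    · by_cases h2 : k = m + 1
      · subst h2
        simp [act_apply, htm, op_none_left, op_none_right]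
      · simp [act_apply, h1, h2]

theorem act_jm (n m : ℕ) (hm0 : 1 ≤ m) (hm : m ≤ n - 1) (v : ZMod 5 × ZMod 5 × ZMod 5) :
    actHom n (jm n m) (tup m v) = tup m (X v) := by
  obtain ⟨a, b, c⟩ := v
  obtain ⟨m, rfl⟩ : ∃ l, m = l + 1 := ⟨m - 1, by omega⟩
  have hm' : m < n - 1 := by omega
  rw [jm, map_mul, map_mul, actHom_sg n m hm', Equiv.Perm.mul_apply, Equiv.Perm.mul_apply]
  rw [jm_fix n m (by omega) (act m (tup (m + 1) (a, b, c))) (by
    intro i hi
    rw [act_apply, if_neg (by omega), if_neg (by omega)]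
    simp only [tup]
    rw [if_neg (by omega), if_neg (by omega), if_neg (by omega)])]
  funext k
  by_cases h1 : k = m
  · subst h1
    simp [act_apply, tup, X, op_some]
    ring
  · by_cases h2 : k = m + 1
    · subst h2
      simp [act_apply, tup, X, op_some]
    · simp [act_apply, tup, X, op_some, h1, h2]


end Pool.Agent.Helper950.BG
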