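import Mathlib

set_option autoImplicit false

namespace Pool.Agent.Helper950.BG

open Module
open scoped commutatorElement

/-- the image of `ρ` is not solvable -/
def NS {H M : Type*} [Group H] [Monoid M] (ρ : H →* M) : Prop :=
  ∀ N : ℕ, ¬ derivedSeries H N ≤ ρ.ker

theorem comm_ker {H M : Type*} [Group H] [Monoid M] (ρ : H →* M) (g h : H)
    (e : ρ g * ρ h = ρ h * ρ g) : ρ ⁅g, h⁆ = 1 := by
  rw [← map_mul, ← map_mul] at e
  rw [commutatorElement_def, show g * h * g⁻¹ * h⁻¹ = (g * h) * (h * g)⁻¹ by group, map_mul, e, ← map_mul]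
  simp

section
variable {K V : Type*} [Field K] [AddCommGroup V] [Module K V] {H : Type*} [Group H]

/-- sub-representation -/
def restr (ρ : H →* Module.End K V) (W : Submodule K V) (hW : ∀ g, ∀ v ∈ W, ρ g v ∈ W) :
    H →* Module.End K W where
  toFun g := (ρ g).restrict (hW g)
  map_one' := by ext; simp
  map_mul' := by intros; ext; simp

/-- quotient representation -/
def quo (ρ : H →* Module.End K V) (W : Submodule K V) (hW : ∀ g, ∀ v ∈ W, ρ g v ∈ W) :
    H →* Module.End K (V ⧸ W) where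
  toFun g := W.mapQ W (ρ g) (fun v hv => hW g v hv)
  map_one' := by ext; simp
  map_mul' := by intros; ext; simp

theorem ns_split (ρ : H →* Module.End K V) (W : Submodule K V)
    (hW : ∀ g, ∀ v ∈ W, ρ g v ∈ W) (h : NS ρ) : NS (restr ρ W hW) ∨ NS (quo ρ W hW) := by
  by_contra hcon
  push Not at hcon
  obtain ⟨h1, h2⟩ := hcon
  unfold NS at h1 h2
  push Not at h1 h2
  obtain ⟨a, ha⟩ := h1
  obtain ⟨b, hb⟩ := h2
  have ha' : derivedSeries H (max a b) ≤ (restr ρ W hW).ker :=
    (derivedSeries_antitone H (le_max_left a b)).trans ha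
  have hb' : derivedSeries H (max a b) ≤ (quo ρ W hW).ker :=
    (derivedSeries_antitone H (le_max_right a b)).trans hb
  apply h (max a b + 1)
  rw [derivedSeries_succ, Subgroup.commutator_le]
  have k1 : ∀ g ∈ derivedSeries H (max a b), ∀ w ∈ W, ρ g w = w := by
    intro g hg w hw
    have h3 : (restr ρ W hW) g = 1 := ha' hg
    have h4 := congrArg (fun f : Module.End K W => ((f ⟨w, hw⟩ : W) : V)) h3
    exact h4
  have k2 : ∀ g ∈ derivedSeries H (max a b), ∀ v : V, ρ g v - v ∈ W := by
    intro g hg v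
    have h3 : (quo ρ W hW) g = 1 := hb' hg
    have h4 := congrArg (fun f : Module.End K (V ⧸ W) => f (W.mkQ v)) h3
    have h5 : W.mkQ (ρ g v) = W.mkQ v := h4
    rw [← sub_eq_zero, ← map_sub] at h5
    exact (Submodule.Quotient.mk_eq_zero W).1 h5
  intro g hg k hk
  rw [MonoidHom.mem_ker]
  apply comm_ker
  ext v
  have e1 : ρ g (ρ k v) = ρ g v + (ρ k v - v) := by
    have : ρ k v = v + (ρ k v - v) := by abel
    conv_lhs => rw [this]
    rw [map_add, k1 g hg _ (k2 k hk v)]
  have e2 : ρ k (ρ g v) = ρ k v + (ρ g v - v) := by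
    have : ρ g v = v + (ρ g v - v) := by abel
    conv_lhs => rw [this]
    rw [map_add, k1 k hk _ (k2 g hg v)]
  rw [Module.End.mul_apply, Module.End.mul_apply, e1, e2]
  abel

/-- equivariant maps from the invariant subspace `U` to `V` -/
def HomU (ρ : H →* Module.End K V) (U : Submodule K V) (hU : ∀ g, ∀ v ∈ U, ρ g v ∈ U) :
    Submodule K (U →ₗ[K] V) where
  carrier := {f | ∀ g (u : U), f ⟨ρ g u, hU g u u.2⟩ = ρ g (f u)}
  add_mem' := by
    intro a b ha hb g u
    simp only [LinearMap.add_apply, map_add]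
    rw [ha g u, hb g u]
  zero_mem' := by intro g u; simp
  smul_mem' := by
    intro c a ha g u
    simp only [LinearMap.smul_apply, map_smul]
    rw [ha g u]

theorem exists_min [FiniteDimensional K V] [Nontrivial V] (ρ : H →* Module.End K V) :
    ∃ U : Submodule K V, U ≠ ⊥ ∧ (∀ g, ∀ v ∈ U, ρ g v ∈ U) ∧
      ∀ W : Submodule K V, W ≤ U → (∀ g, ∀ v ∈ W, ρ g v ∈ W) → W = ⊥ ∨ W = U := by
  classical
  have hex : ∃ n : ℕ, ∃ U : Submodule K V, U ≠ ⊥ ∧ (∀ g, ∀ v ∈ U, ρ g v ∈ U) ∧ finrank K U = n :=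
    ⟨finrank K (⊤ : Submodule K V), ⊤, top_ne_bot, fun _ _ _ => Submodule.mem_top, rfl⟩
  obtain ⟨U, hU0, hU, hUn⟩ := Nat.find_spec hex
  refine ⟨U, hU0, hU, fun W hWU hW => ?_⟩
  by_cases hW0 : W = ⊥
  · exact Or.inl hW0
  · right
    have h1 : Nat.find hex ≤ finrank K W := Nat.find_min' hex ⟨W, hW0, hW, rfl⟩
    rw [← hUn] at h1
    exact Submodule.eq_of_le_of_finrank_le hWU h1

theorem homU_inj (ρ : H →* Module.End K V) (U : Submodule K V) (hU : ∀ g, ∀ v ∈ U, ρ g v ∈ U)
    (hmin : ∀ W : Submodule K V, W ≤ U → (∀ g, ∀ v ∈ W, ρ g v ∈ W) → W = ⊥ ∨ W = U)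
    (f : U →ₗ[K] V) (hf : f ∈ HomU ρ U hU) (h0 : f ≠ 0) : Function.Injective f := by
  have hW := hmin ((LinearMap.ker f).map U.subtype) (Submodule.map_subtype_le _ _) (by
    rintro g v ⟨u, hu, rfl⟩
    refine ⟨⟨ρ g u, hU g u u.2⟩, ?_, rfl⟩
    have h1 : f ⟨ρ g u, hU g u u.2⟩ = ρ g (f u) := hf g u
    have h2 : f u = 0 := hu
    change f ⟨ρ g u, hU g u u.2⟩ = 0
    rw [h1, h2, map_zero])
  rcases hW with h | h
  · rw [← LinearMap.ker_eq_bot]
    rw [Submodule.eq_bot_iff]
    intro u hu
    have h3 : (u : V) ∈ (LinearMap.ker f).map U.subtype := ⟨u, hu, rfl⟩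
    rw [h, Submodule.mem_bot] at h3
    exact Subtype.ext h3
  · exfalso
    apply h0
    ext u
    have h3 : (u : V) ∈ (LinearMap.ker f).map U.subtype := by rw [h]; exact u.2
    obtain ⟨w, hw, hwu⟩ := h3
    have h4 : w = u := Subtype.ext hwu
    rw [← h4]
    exact hw

theorem homU_pair [IsAlgClosed K] [FiniteDimensional K V] (ρ : H →* Module.End K V)
    (U : Submodule K V) (hU : ∀ g, ∀ v ∈ U, ρ g v ∈ U) (hU0 : U ≠ ⊥)
    (hmin : ∀ W : Submodule K V, W ≤ U → (∀ g, ∀ v ∈ W, ρ g v ∈ W) → W = ⊥ ∨ W = U)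
    (u₁ u₂ : U) (hli : LinearIndependent K ![u₁, u₂])
    (f₁ f₂ : U →ₗ[K] V) (h₁ : f₁ ∈ HomU ρ U hU) (h₂ : f₂ ∈ HomU ρ U hU)
    (h : f₁ u₁ + f₂ u₂ = 0) : f₁ = 0 ∧ f₂ = 0 := by
  have hu1 : u₁ ≠ 0 := by
    have := hli.ne_zero 0
    simpa using this
  have hu2 : u₂ ≠ 0 := by
    have := hli.ne_zero 1
    simpa using this
  by_cases e2 : f₂ = 0
  · refine ⟨?_, e2⟩
    by_contra e1
    have hi := homU_inj ρ U hU hmin f₁ h₁ e1
    have h3 : f₁ u₁ = f₁ 0 := by
      rw [e2] at h
      simpa using h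
    exact hu1 (hi h3)
  by_cases e1 : f₁ = 0
  · exfalso
    have hi := homU_inj ρ U hU hmin f₂ h₂ e2
    have h3 : f₂ u₂ = f₂ 0 := by
      rw [e1] at h
      simpa using h
    exact hu2 (hi h3)
  exfalso
  have i1 := homU_inj ρ U hU hmin f₁ h₁ e1
  have i2 := homU_inj ρ U hU hmin f₂ h₂ e2
  -- range f₁ ≤ range f₂
  have hle : ∀ u : U, f₁ u ∈ LinearMap.range f₂ := by
    let W : Submodule K V := ((LinearMap.range f₂).comap f₁).map U.subtype
    have hWU : W ≤ U := by
      rintro v ⟨u, _, rfl⟩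
      exact u.2
    have hWinv : ∀ g, ∀ v ∈ W, ρ g v ∈ W := by
      rintro g v ⟨u, hu, rfl⟩
      obtain ⟨u', hu'⟩ := hu
      refine ⟨⟨ρ g u, hU g u u.2⟩, ?_, rfl⟩
      refine ⟨⟨ρ g u', hU g u' u'.2⟩, ?_⟩
      rw [h₁ g u, h₂ g u', hu']
    have hu1W : (u₁ : V) ∈ W := by
      refine ⟨u₁, ⟨-u₂, ?_⟩, rfl⟩
      rw [map_neg]
      exact (eq_neg_of_add_eq_zero_left h).symm
    rcases hmin W hWU hWinv with hW | hW
    · exfalso
      rw [hW, Submodule.mem_bot] at hu1W
      exact hu1 (Subtype.ext hu1W)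
    · intro u
      have huW : (u : V) ∈ W := by
        rw [hW]; exact u.2
      obtain ⟨u', hu', he⟩ := huW
      have : u' = u := Subtype.ext he
      rw [← this]
      exact hu'
  let e := LinearEquiv.ofInjective f₂ i2
  let T : Module.End K U := e.symm.toLinearMap ∘ₗ (f₁.codRestrict (LinearMap.range f₂) hle)
  have hT : ∀ u, f₂ (T u) = f₁ u := by
    intro u
    have h5 : e (T u) = f₁.codRestrict (LinearMap.range f₂) hle u := by
      change e (e.symm _) = _
      rw [LinearEquiv.apply_symm_apply]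
    have h6 := congrArg Subtype.val h5
    rw [LinearMap.codRestrict_apply] at h6
    rw [← h6]
    rfl
  haveI : Nontrivial U := ⟨⟨u₁, 0, hu1⟩⟩
  obtain ⟨c, hc⟩ := Module.End.exists_eigenvalue T
  obtain ⟨u, hu⟩ := hc.exists_hasEigenvector
  have hTu : T u = c • u := hu.apply_eq_smul
  have hmem : f₁ - c • f₂ ∈ HomU ρ U hU := Submodule.sub_mem _ h₁ (Submodule.smul_mem _ _ h₂)
  have hzero : f₁ - c • f₂ = 0 := by
    by_contra hne
    have hi := homU_inj ρ U hU hmin _ hmem hne
    have h7 : (f₁ - c • f₂) u = (f₁ - c • f₂) 0 := by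
      rw [map_zero, LinearMap.sub_apply, LinearMap.smul_apply, ← hT u, hTu, map_smul, sub_self]
    exact hu.2 (hi h7)
  have hf1 : f₁ = c • f₂ := sub_eq_zero.1 hzero
  have h8 : f₂ (c • u₁ + u₂) = f₂ 0 := by
    rw [map_zero, map_add, map_smul]
    rw [hf1, LinearMap.smul_apply] at h
    exact h
  have h9 := i2 h8
  have h10 := (LinearIndependent.pair_iff.1 hli) c 1 (by rw [one_smul]; exact h9)
  exact one_ne_zero h10.2

theorem finrank_homU [IsAlgClosed K] [FiniteDimensional K V] (ρ : H →* Module.End K V)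
    (U : Submodule K V) (hU : ∀ g, ∀ v ∈ U, ρ g v ∈ U) (hU0 : U ≠ ⊥)
    (hmin : ∀ W : Submodule K V, W ≤ U → (∀ g, ∀ v ∈ W, ρ g v ∈ W) → W = ⊥ ∨ W = U)
    (u₁ u₂ : U) (hli : LinearIndependent K ![u₁, u₂]) :
    2 * finrank K (HomU ρ U hU) ≤ finrank K V := by
  let ev : U → (HomU ρ U hU →ₗ[K] V) := fun u =>
    (LinearMap.applyₗ (R := K) u).comp (HomU ρ U hU).subtype
  let L : (HomU ρ U hU × HomU ρ U hU) →ₗ[K] V := (ev u₁).coprod (ev u₂)
  have hL : Function.Injective L := by
    rw [injective_iff_map_eq_zero]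
    rintro ⟨f, g⟩ h
    have h' : (f : U →ₗ[K] V) u₁ + (g : U →ₗ[K] V) u₂ = 0 := h
    have := homU_pair ρ U hU hU0 hmin u₁ u₂ hli f g f.2 g.2 h'
    ext1
    · exact Subtype.ext this.1
    · exact Subtype.ext this.2
  have h1 := LinearMap.finrank_le_finrank_of_injective hL
  rw [finrank_prod] at h1
  omega

/-- the action of a commuting representation on `HomU` -/
def actM (ρ : H →* Module.End K V) (U : Submodule K V) (hU : ∀ g, ∀ v ∈ U, ρ g v ∈ U)
    (τ : H →* Module.End K V) (hc : ∀ g h, ρ g * τ h = τ h * ρ g) :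
    H →* Module.End K (HomU ρ U hU) where
  toFun h :=
    { toFun := fun f => ⟨(τ h) ∘ₗ f.1, by
        intro g u
        have h1 := f.2 g u
        have h2 := LinearMap.congr_fun (hc g h) (f.1 u)
        simp only [LinearMap.comp_apply]
        rw [h1]
        exact h2.symm⟩
      map_add' := by intro a b; ext; simp
      map_smul' := by intro c a; ext; simp }
  map_one' := by ext; simp
  map_mul' := by intros; ext; simp

/-- the span of the images of all elements of `HomU` -/
def isoU (ρ : H →* Module.End K V) (U : Submodule K V) (hU : ∀ g, ∀ v ∈ U, ρ g v ∈ U) :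
    Submodule K V := Submodule.span K {v | ∃ f ∈ HomU ρ U hU, ∃ u, f u = v}

theorem isoU_inv (ρ : H →* Module.End K V) (U : Submodule K V) (hU : ∀ g, ∀ v ∈ U, ρ g v ∈ U)
    (g : H) (v : V) (hv : v ∈ isoU ρ U hU) : ρ g v ∈ isoU ρ U hU := by
  unfold isoU at *
  induction hv using Submodule.span_induction with
  | mem x hx =>
    obtain ⟨f, hf, u, rfl⟩ := hx
    exact Submodule.subset_span ⟨f, hf, _, hf g u⟩
  | zero => simp
  | add x y _ _ hx hy => rw [map_add]; exact Submodule.add_mem _ hx hy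
  | smul c x _ hx => rw [map_smul]; exact Submodule.smul_mem _ c hx

theorem isoU_inv' (ρ : H →* Module.End K V) (U : Submodule K V) (hU : ∀ g, ∀ v ∈ U, ρ g v ∈ U)
    (τ : H →* Module.End K V) (hc : ∀ g h, ρ g * τ h = τ h * ρ g)
    (g : H) (v : V) (hv : v ∈ isoU ρ U hU) : τ g v ∈ isoU ρ U hU := by
  unfold isoU at *
  induction hv using Submodule.span_induction with
  | mem x hx =>
    obtain ⟨f, hf, u, rfl⟩ := hx
    exact Submodule.subset_span ⟨_, (actM ρ U hU τ hc g ⟨f, hf⟩).2, u, rfl⟩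
  | zero => simp
  | add x y _ _ hx hy => rw [map_add]; exact Submodule.add_mem _ hx hy
  | smul c x _ hx => rw [map_smul]; exact Submodule.smul_mem _ c hx

theorem isoU_ne (ρ : H →* Module.End K V) (U : Submodule K V) (hU : ∀ g, ∀ v ∈ U, ρ g v ∈ U)
    (hU0 : U ≠ ⊥) : isoU ρ U hU ≠ ⊥ := by
  intro h
  apply hU0
  rw [eq_bot_iff]
  intro v hv
  have : v ∈ isoU ρ U hU := Submodule.subset_span ⟨U.subtype, by intro g u; rfl, ⟨v, hv⟩, rfl⟩
  rw [h] at this
  exact this

/-- two linear maps agreeing on all images of `HomU` are equal when `isoU = ⊤` -/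
theorem iso_ext (ρ : H →* Module.End K V) (U : Submodule K V) (hU : ∀ g, ∀ v ∈ U, ρ g v ∈ U)
    (ht : isoU ρ U hU = ⊤) (a b : V →ₗ[K] V)
    (h : ∀ f ∈ HomU ρ U hU, ∀ u, a (f u) = b (f u)) : a = b := by
  apply LinearMap.ext_on ht
  rintro v ⟨f, hf, u, rfl⟩
  exact h f hf u

theorem ns_actM (ρ : H →* Module.End K V) (U : Submodule K V) (hU : ∀ g, ∀ v ∈ U, ρ g v ∈ U)
    (τ : H →* Module.End K V) (hc : ∀ g h, ρ g * τ h = τ h * ρ g)
    (ht : isoU ρ U hU = ⊤) (hns : NS τ) : NS (actM ρ U hU τ hc) := by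
  intro N hN
  apply hns N
  intro g hg
  have := hN hg
  rw [MonoidHom.mem_ker] at this ⊢
  apply iso_ext ρ U hU ht
  intro f hf u
  have h2 := congrArg (fun q : HomU ρ U hU => q.1 u) (LinearMap.congr_fun this ⟨f, hf⟩)
  exact h2

/-- dimension at most one: the image is abelian -/
theorem abelian_of_rank_one (ρ : H →* Module.End K V) (U : Submodule K V)
    (hU : ∀ g, ∀ v ∈ U, ρ g v ∈ U) (ht : isoU ρ U hU = ⊤)
    (h1 : ∀ u₁ u₂ : U, ¬ LinearIndependent K ![u₁, u₂]) : ¬ NS ρ := by
  intro hns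
  apply hns 1
  rw [derivedSeries_succ, Subgroup.commutator_le]
  intro g _ h _
  rw [MonoidHom.mem_ker]
  apply comm_ker
  have key : ∀ (k : H) (u : U), u ≠ 0 → ∃ c : K, c • u = ⟨ρ k u, hU k u u.2⟩ := by
    intro k u hu
    have := h1 u ⟨ρ k u, hU k u u.2⟩
    rw [LinearIndependent.pair_iff' hu] at this
    push Not at this
    exact this
  apply iso_ext ρ U hU ht
  intro f hf u
  by_cases hu : u = 0
  · simp [hu]
  obtain ⟨a, ha⟩ := key g u hu
  obtain ⟨b, hb⟩ := key h u hu
  have e1 : ρ g (f u) = a • f u := by rw [← hf g u, ← ha, map_smul]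
  have e2 : ρ h (f u) = b • f u := by rw [← hf h u, ← hb, map_smul]
  rw [Module.End.mul_apply, Module.End.mul_apply, e1, e2, map_smul, map_smul, e1, e2,
    smul_comm]

end

universe u v w

/-- Main: pairwise commuting actions of `H` on `V`, the ones with index in `s` non-solvable. -/
theorem main {K : Type u} [Field K] [IsAlgClosed K] {H : Type v} [Group H]
    {ι : Type w} [DecidableEq ι] (n : ℕ) :
    ∀ (V : Type u) [AddCommGroup V] [Module K V] [FiniteDimensional K V]
      (ρ : ι → H →* Module.End K V) (s : Finset ι),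
      (∀ i j, i ≠ j → ∀ g h, ρ i g * ρ j h = ρ j h * ρ i g) → (∀ i ∈ s, NS (ρ i)) →
      finrank K V ≤ n → 2 * s.card ≤ finrank K V := by
  induction n with
  | zero =>
    intro V _ _ _ ρ s hc hs hn
    have h0 : finrank K V = 0 := by omega
    have hsub : Subsingleton V := finrank_zero_iff.mp h0
    have : s = ∅ := by
      rw [Finset.eq_empty_iff_forall_notMem]
      intro i hi
      apply hs i hi 0
      intro g _
      rw [MonoidHom.mem_ker]
      exact Subsingleton.elim _ _
    simp [this]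
  | succ n ih =>
    intro V _ _ _ ρ s hc hs hn
    classical
    by_cases hirr : ∀ W : Submodule K V, (∀ i g, ∀ v ∈ W, ρ i g v ∈ W) → W = ⊥ ∨ W = ⊤
    · rcases s.eq_empty_or_nonempty with hse | ⟨i0, hi0⟩
      · simp [hse]
      have hnt : Nontrivial V := by
        by_contra hcon
        rw [not_nontrivial_iff_subsingleton] at hcon
        apply hs i0 hi0 0
        intro g _
        rw [MonoidHom.mem_ker]
        exact Subsingleton.elim _ _
      obtain ⟨U, hU0, hU, hmin⟩ := exists_min (ρ i0)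
      have ht : isoU (ρ i0) U hU = ⊤ := by
        rcases hirr (isoU (ρ i0) U hU) (by
          intro i g v hv
          by_cases hi : i0 = i
          · subst hi; exact isoU_inv _ U hU g v hv
          · exact isoU_inv' (ρ i0) U hU (ρ i) (hc i0 i hi) g v hv) with h | h
        · exact absurd h (isoU_ne (ρ i0) U hU hU0)
        · exact h
      by_cases h2 : ∀ u₁ u₂ : U, ¬ LinearIndependent K ![u₁, u₂]
      · exact absurd (hs i0 hi0) (abelian_of_rank_one (ρ i0) U hU ht h2)
      push Not at h2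
      obtain ⟨u₁, u₂, hli⟩ := h2
      have hdim := finrank_homU (ρ i0) U hU hU0 hmin u₁ u₂ hli
      -- nonzero dimension of HomU
      have hpos : 0 < finrank K (HomU (ρ i0) U hU) := by
        rw [Module.finrank_pos_iff]
        refine ⟨⟨U.subtype, by intro g u; rfl⟩, 0, ?_⟩
        intro h
        apply hU0
        rw [eq_bot_iff]
        intro v hv
        have := congrArg (fun q : HomU (ρ i0) U hU => q.1 ⟨v, hv⟩) h
        simpa using this
      let ρ' : ι → H →* Module.End K (HomU (ρ i0) U hU) := fun i =>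
        if hi : i0 = i then 1 else actM (ρ i0) U hU (ρ i) (hc i0 i hi)
      have hc' : ∀ i j, i ≠ j → ∀ g h, ρ' i g * ρ' j h = ρ' j h * ρ' i g := by
        intro i j hij g h
        by_cases hi : i0 = i
        · simp [ρ', hi]
        · by_cases hj : i0 = j
          · simp [ρ', hj]
          · simp only [ρ', hi, hj, dif_neg, not_false_eq_true]
            apply LinearMap.ext
            intro f
            apply Subtype.ext
            apply LinearMap.ext
            intro u
            exact LinearMap.congr_fun (hc i j hij g h) (f.1 u)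
      have hs' : ∀ i ∈ s.erase i0, NS (ρ' i) := by
        intro i hi
        rw [Finset.mem_erase] at hi
        have hne : ¬ i0 = i := fun h => hi.1 h.symm
        simp only [ρ', hne, dif_neg, not_false_eq_true]
        exact ns_actM (ρ i0) U hU (ρ i) (hc i0 i hne) ht (hs i hi.2)
      have := ih (HomU (ρ i0) U hU) ρ' (s.erase i0) hc' hs' (by omega)
      rw [Finset.card_erase_of_mem hi0] at this
      have hcard : 1 ≤ s.card := Finset.card_pos.mpr ⟨i0, hi0⟩
      omega
    · push Not at hirr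
      obtain ⟨W, hW, hb, htop⟩ := hirr
      have hWi : ∀ i, ∀ g, ∀ v ∈ W, ρ i g v ∈ W := fun i g v hv => hW i g v hv
      have hlt : finrank K W < finrank K V := Submodule.finrank_lt htop
      have hq : finrank K (V ⧸ W) + finrank K W = finrank K V := Submodule.finrank_quotient_add_finrank W
      have hWpos : 0 < finrank K W := by
        rw [Module.finrank_pos_iff]
        exact Submodule.nontrivial_iff_ne_bot.mpr hb
      have h1 := ih W (fun i => restr (ρ i) W (hWi i)) (s.filter (fun i => NS (restr (ρ i) W (hWi i))))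
        (by
          intro i j hij g h
          apply LinearMap.ext
          intro v
          apply Subtype.ext
          exact LinearMap.congr_fun (hc i j hij g h) v.1)
        (by intro i hi; exact (Finset.mem_filter.mp hi).2) (by omega)
      have h2 := ih (V ⧸ W) (fun i => quo (ρ i) W (hWi i)) (s.filter (fun i => NS (quo (ρ i) W (hWi i))))
        (by
          intro i j hij g h
          apply LinearMap.ext
          intro v
          obtain ⟨v, rfl⟩ := Submodule.mkQ_surjective W v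
          have := LinearMap.congr_fun (hc i j hij g h) v
          exact congrArg W.mkQ this)
        (by intro i hi; exact (Finset.mem_filter.mp hi).2) (by omega)
      have h3 : s.card ≤ (s.filter (fun i => NS (restr (ρ i) W (hWi i)))).card +
          (s.filter (fun i => NS (quo (ρ i) W (hWi i)))).card := by
        refine le_trans (Finset.card_le_card ?_) (Finset.card_union_le _ _)
        intro i hi
        rw [Finset.mem_union, Finset.mem_filter, Finset.mem_filter]
        rcases ns_split (ρ i) W (hWi i) (hs i hi) with h | h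
        · exact Or.inl ⟨hi, h⟩
        · exact Or.inr ⟨hi, h⟩
      omega

end Pool.Agent.Helper950.BG
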