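import Mathlib
import Pool.Agent.Helper950.BG.Grp

set_option autoImplicit false

namespace Pool.Agent.Helper950.BG

open Module
open scoped commutatorElement

/-- triples -/
abbrev T3 := ZMod 5 × ZMod 5 × ZMod 5

/-- inverse of `X` -/
def X' (v : ZMod 5 × ZMod 5 × ZMod 5) : ZMod 5 × ZMod 5 × ZMod 5 :=
  (- v.1 + 2 * v.2.1, -2 * v.1 + 3 * v.2.1, v.2.2)

/-- inverse of `Y` -/
def Y' (v : ZMod 5 × ZMod 5 × ZMod 5) : ZMod 5 × ZMod 5 × ZMod 5 :=
  (v.1, - v.2.1 + 2 * v.2.2, -2 * v.2.1 + 3 * v.2.2)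

theorem XX' (v : T3) : X (X' v) = v := by
  obtain ⟨a, b, c⟩ := v; simp only [X, X', Prod.mk.injEq]; refine ⟨by ring, by ring, trivial⟩

theorem YY' (v : T3) : Y (Y' v) = v := by
  obtain ⟨a, b, c⟩ := v; simp only [Y, Y', Prod.mk.injEq]; refine ⟨trivial, by ring, by ring⟩

theorem idX : ∀ v : T3, X' (X' (Y (X (Y (Y (X (X (Y' (Y' (X' (Y' v))))))))))) = X v := by
  decide +kernel

theorem idY : ∀ v : T3, Y' (Y' (X (X (Y (X (Y (Y (X' (Y' (X' (X' v))))))))))) = Y v := by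
  decide +kernel

variable {S : Type*} {H : Type*} [Group H]

/-- `h` acts on the family `tu` as `A` -/
def Rep (θ : H →* Equiv.Perm S) (tu : T3 → S) (h : H) (A : T3 → T3) : Prop :=
  ∀ v, θ h (tu v) = tu (A v)

theorem Rep.mul {θ : H →* Equiv.Perm S} {tu : T3 → S} {g h : H} {A B : T3 → T3}
    (hg : Rep θ tu g A) (hh : Rep θ tu h B) : Rep θ tu (g * h) (fun v => A (B v)) := by
  intro v
  rw [map_mul, Equiv.Perm.mul_apply, hh v, hg]

theorem Rep.inv {θ : H →* Equiv.Perm S} {tu : T3 → S} {g : H} {A B : T3 → T3}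
    (hg : Rep θ tu g A) (hAB : ∀ v, A (B v) = v) : Rep θ tu g⁻¹ B := by
  intro v
  rw [map_inv, Equiv.Perm.inv_eq_iff_eq, hg, hAB]

theorem perf (θ : H →* Equiv.Perm S) (tu : T3 → S) (a b : H)
    (ha : Rep θ tu a X) (hb : Rep θ tu b Y) (N : ℕ) :
    ∃ a' ∈ derivedSeries H N, ∃ b' ∈ derivedSeries H N, Rep θ tu a' X ∧ Rep θ tu b' Y := by
  induction N with
  | zero => exact ⟨a, by simp, b, by simp, ha, hb⟩
  | succ N ih =>
    obtain ⟨x, hx, y, hy, rx, ry⟩ := ih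
    have rx' := rx.inv XX'
    have ry' := ry.inv YY'
    refine ⟨⁅x⁻¹ * x⁻¹, y * x * y * y⁆, ?_, ⁅y⁻¹ * y⁻¹, x * x * y * x⁆, ?_, ?_, ?_⟩
    · rw [derivedSeries_succ]
      exact Subgroup.commutator_mem_commutator (mul_mem (inv_mem hx) (inv_mem hx))
        (mul_mem (mul_mem (mul_mem hy hx) hy) hy)
    · rw [derivedSeries_succ]
      exact Subgroup.commutator_mem_commutator (mul_mem (inv_mem hy) (inv_mem hy))
        (mul_mem (mul_mem (mul_mem hx hx) hy) hx)
    · intro v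
      rw [← idX v]
      have := (rx'.mul (rx'.mul (ry.mul (rx.mul (ry.mul (ry.mul (rx.mul (rx.mul
        (ry'.mul (ry'.mul (rx'.mul ry'))))))))))) v
      rw [← this]
      congr 2
      simp only [commutatorElement_def, mul_inv_rev, inv_inv, mul_assoc]
    · intro v
      rw [← idY v]
      have := (ry'.mul (ry'.mul (rx.mul (rx.mul (ry.mul (rx.mul (ry.mul (ry.mul
        (rx'.mul (ry'.mul (rx'.mul rx'))))))))))) v
      rw [← this]
      congr 2
      simp only [commutatorElement_def, mul_inv_rev, inv_inv, mul_assoc]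

theorem not_le_ker (θ : H →* Equiv.Perm S) (tu : T3 → S) (htu : Function.Injective tu) (a b : H)
    (ha : Rep θ tu a X) (hb : Rep θ tu b Y) (N : ℕ) : ¬ derivedSeries H N ≤ θ.ker := by
  intro h
  obtain ⟨x, hx, y, hy, rx, ry⟩ := perf θ tu a b ha hb N
  have h1 := h hx
  rw [MonoidHom.mem_ker] at h1
  have h2 := rx (1, 0, 0)
  rw [h1] at h2
  have h3 := htu h2
  revert h3
  decide

end Pool.Agent.Helper950.BG
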