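import Mathlib
import Pool.Agent.Helper950.BG.LA
import Pool.Agent.Helper950.BG.Grp
import Pool.Agent.Helper950.BG.Perf

set_option autoImplicit false

namespace Pool.Agent.Helper950.BG

open Module
open scoped commutatorElement

theorem lift_comm {α β G : Type*} [Group G] (u : α → G) (v : β → G)
    (h : ∀ a b, Commute (u a) (v b)) (g : FreeGroup α) (k : FreeGroup β) :
    Commute (FreeGroup.lift u g) (FreeGroup.lift v k) := by
  induction g using FreeGroup.induction_on with
  | C1 => simp
  | of a =>
    induction k using FreeGroup.induction_on with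
    | C1 => simp
    | of b => simpa using h a b
    | inv_of b hb => rw [map_inv]; exact hb.inv_right
    | mul x y hx hy => rw [map_mul]; exact hx.mul_right hy
  | inv_of a ha => rw [map_inv]; exact ha.inv_left
  | mul x y hx hy => rw [map_mul]; exact hx.mul_left hy

theorem jm_jm (n m : ℕ) (hm : m ≤ n - 1) : ∀ m' : ℕ, m' < m → Commute (jm n m) (jm n m') := by
  intro m'
  induction m' with
  | zero => intro _; exact Commute.one_right _
  | succ m' ih =>
    intro h
    have h1 := jm_comm n m m' hm (by omega)
    exact (h1.mul_right (ih (by omega))).mul_right h1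

theorem tup_inj (m : ℕ) (hm : 1 ≤ m) : Function.Injective (tup m) := by
  rintro ⟨a, b, c⟩ ⟨a', b', c'⟩ h
  have h1 := congrFun h (m - 1)
  have h2 := congrFun h m
  have h3 := congrFun h (m + 1)
  simp only [tup] at h1 h2 h3
  rw [if_pos (by omega), if_pos (by omega)] at h1
  simp at h2 h3
  rw [if_neg (by omega), if_neg (by omega)] at h3
  simp only [Option.some.injEq] at h1 h3
  simp [h1, h2, h3]

/-- generators of the `j`-th free subgroup -/
def gen (n j : ℕ) : Fin 2 → PureBraidGroup n :=
  ![⟨jm n (2 * j + 1), jm_pure n _⟩, ⟨sg n (2 * j + 1) ^ 2, sq_pure n _⟩]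

theorem gen_comm_lt (n i j : ℕ) (hij : i < j) (hj : 2 * j + 1 ≤ n - 1) (a b : Fin 2) :
    Commute (gen n i a) (gen n j b) := by
  have e1 : Commute (jm n (2 * j + 1)) (jm n (2 * i + 1)) := jm_jm n _ hj _ (by omega)
  have e2 : Commute (jm n (2 * j + 1)) (sg n (2 * i + 1)) := jm_comm n _ _ hj (by omega)
  have e3 : Commute (jm n (2 * i + 1)) (sg n (2 * j + 1)) := jm_far n _ _ (by omega)
  have e4 : Commute (sg n (2 * i + 1)) (sg n (2 * j + 1)) := sg_far n _ _ (by omega)
  have key : Commute ((gen n i a : PureBraidGroup n) : BraidGroup n) (gen n j b : PureBraidGroup n) := by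
    fin_cases a <;> fin_cases b
    · exact e1.symm
    · exact e3.pow_right 2
    · exact (e2.pow_right 2).symm
    · exact e4.pow_pow 2 2
  exact Subtype.ext key

/-- the `j`-th free subgroup -/
def phi (n j : ℕ) : FreeGroup (Fin 2) →* PureBraidGroup n := FreeGroup.lift (gen n j)

theorem phi_comm (n i j : ℕ) (hij : i ≠ j) (hi : 2 * i + 1 ≤ n - 1) (hj : 2 * j + 1 ≤ n - 1)
    (g h : FreeGroup (Fin 2)) : Commute (phi n i g) (phi n j h) := by
  rcases lt_or_gt_of_ne hij with h1 | h1
  · exact lift_comm _ _ (gen_comm_lt n i j h1 hj) g h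
  · exact (lift_comm _ _ (gen_comm_lt n j i h1 hi) h g).symm

theorem phi_ns (n j : ℕ) (hj : 2 * j + 1 < n - 1) {M : Type*} [Monoid M]
    (F : PureBraidGroup n →* M) (hF : Function.Injective F) : NS (F.comp (phi n j)) := by
  intro N hN
  refine not_le_ker ((actHom n).comp ((PureBraidGroup n).subtype.comp (phi n j)))
    (tup (2 * j + 1)) (tup_inj _ (by omega)) (FreeGroup.of 0) (FreeGroup.of 1) ?_ ?_ N ?_
  · intro v
    simp only [MonoidHom.comp_apply, phi, FreeGroup.lift_apply_of, gen, Subgroup.subtype_apply]
    exact act_jm n (2 * j + 1) (by omega) (by omega) v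
  · intro v
    simp only [MonoidHom.comp_apply, phi, FreeGroup.lift_apply_of, gen, Subgroup.subtype_apply]
    exact act_sq n (2 * j + 1) (by omega) v
  · intro g hg
    have h1 := hN hg
    rw [MonoidHom.mem_ker, MonoidHom.comp_apply] at h1
    have h2 : phi n j g = 1 := hF (by rw [h1, map_one])
    rw [MonoidHom.mem_ker, MonoidHom.comp_apply, MonoidHom.comp_apply, h2, map_one, map_one]

universe u

/-- the action of `GL_d(K)` on `(K̄)^d` -/
noncomputable def glEnd (d : ℕ) (K : Type u) [Field K] :
    Matrix.GeneralLinearGroup (Fin d) K →* Module.End (AlgebraicClosure K) (Fin d → AlgebraicClosure K) :=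
  ((Matrix.toLinAlgEquiv' : Matrix (Fin d) (Fin d) (AlgebraicClosure K) ≃ₐ[AlgebraicClosure K] _) :
    Matrix (Fin d) (Fin d) (AlgebraicClosure K) →* _).comp
  ((Units.coeHom (Matrix (Fin d) (Fin d) (AlgebraicClosure K))).comp
    (Matrix.GeneralLinearGroup.map (algebraMap K (AlgebraicClosure K))))

theorem glEnd_inj (d : ℕ) (K : Type u) [Field K] : Function.Injective (glEnd d K) := by
  intro a b h
  have h1 : Matrix.toLinAlgEquiv' (Matrix.GeneralLinearGroup.map (algebraMap K (AlgebraicClosure K)) a).1 =
    Matrix.toLinAlgEquiv' (Matrix.GeneralLinearGroup.map (algebraMap K (AlgebraicClosure K)) b).1 := h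
  have h2 := Matrix.toLinAlgEquiv'.injective h1
  apply Units.ext
  ext i j
  have h3 := congrFun (congrFun h2 i) j
  exact (algebraMap K (AlgebraicClosure K)).injective h3

theorem lower_pure (n d : ℕ) (K : Type u) [Field K]
    (f : PureBraidGroup n →* Matrix.GeneralLinearGroup (Fin d) K) (hf : Function.Injective f) :
    2 * ((n - 1) / 2) ≤ d := by
  have h := main (K := AlgebraicClosure K) (H := FreeGroup (Fin 2)) (ι := Fin ((n - 1) / 2)) d
    (Fin d → AlgebraicClosure K) (fun j => ((glEnd d K).comp f).comp (phi n j)) Finset.univ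
    (by
      intro i j hij g h
      have := phi_comm n i j (fun h => hij (Fin.ext h)) (by omega) (by omega) g h
      simp only [MonoidHom.comp_apply]
      rw [← map_mul, ← map_mul, this.eq, map_mul, map_mul])
    (by
      intro j _
      exact phi_ns n j (by omega) _ (by
        rw [MonoidHom.coe_comp]
        exact (glEnd_inj d K).comp hf))
    (by simp)
  simpa using h

theorem lower_braid (n d : ℕ) (K : Type u) [Field K]
    (f : BraidGroup n →* Matrix.GeneralLinearGroup (Fin d) K) (hf : Function.Injective f) :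
    2 * ((n - 1) / 2) ≤ d :=
  lower_pure n d K (f.comp (PureBraidGroup n).subtype)
    (by rw [MonoidHom.coe_comp]; exact hf.comp Subtype.coe_injective)

end Pool.Agent.Helper950.BG
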