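import Mathlib
import Pool.Agent.Helper950.BG.LA

set_option autoImplicit false

namespace Pool.Agent.Helper950.BG

open Module
open scoped commutatorElement

universe u v w

/-! TARGET: in dimension at most 2 the centralizer of a non-scalar operator is commutative -/
theorem small_dim {K V : Type*} [Field K] [AddCommGroup V] [Module K V] [FiniteDimensional K V]
    {H : Type*} [Group H] (ρ : H →* Module.End K V) (hV : finrank K V ≤ 2) (a b z c : H)
    (hza : ρ z * ρ a = ρ a * ρ z) (hzb : ρ z * ρ b = ρ b * ρ z) :
    Subgroup.normalClosure {⁅z, c⁆} ⊓ Subgroup.normalClosure {⁅a, b⁆} ≤ ρ.ker := by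
  by_cases hdep : ∀ v : V, ¬ LinearIndependent K ![v, ρ z v]
  · -- scalar
    obtain ⟨k, hk⟩ := LinearMap.exists_eq_smul_id_of_forall_notLinearIndependent hdep
    refine inf_le_left.trans (Subgroup.normalClosure_le_normal ?_)
    rintro x rfl
    apply comm_ker
    ext v
    rw [hk]
    simp
  · push Not at hdep
    obtain ⟨v, hv⟩ := hdep
    refine inf_le_right.trans (Subgroup.normalClosure_le_normal ?_)
    rintro x rfl
    apply comm_ker
    have hcard : Fintype.card (Fin 2) = finrank K V := by
      have h1 := hv.fintype_card_le_finrank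
      rw [Fintype.card_fin] at h1 ⊢
      omega
    let bs := basisOfLinearIndependentOfCardEqFinrank hv hcard
    have hbs : ⇑bs = ![v, ρ z v] := coe_basisOfLinearIndependentOfCardEqFinrank hv hcard
    have key : ∀ f : Module.End K V, ρ z * f = f * ρ z → ∃ p q : K, f = p • 1 + q • ρ z := by
      intro f hf
      refine ⟨bs.repr (f v) 0, bs.repr (f v) 1, ?_⟩
      have hfv : f v = bs.repr (f v) 0 • v + bs.repr (f v) 1 • ρ z v := by
        have h1 := bs.sum_repr (f v)
        rw [Fin.sum_univ_two, hbs] at h1
        simpa using h1.symm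
      apply bs.ext
      intro i
      rw [hbs]
      fin_cases i
      · simpa using hfv
      · have h2 : f (ρ z v) = ρ z (f v) := (LinearMap.congr_fun hf v).symm
        have h3 : f (ρ z v) = bs.repr (f v) 0 • ρ z v + bs.repr (f v) 1 • ρ z (ρ z v) := by
          rw [h2]
          conv_lhs => rw [hfv]
          rw [map_add, map_smul, map_smul]
        simpa using h3
    obtain ⟨p, q, ha⟩ := key (ρ a) hza
    obtain ⟨p', q', hb⟩ := key (ρ b) hzb
    rw [ha, hb]
    simp only [add_mul, mul_add, smul_mul_smul_comm, mul_one, one_mul]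
    rw [mul_comm p' p, mul_comm q' p, mul_comm p' q, mul_comm q' q]
    abel


section
variable {K V : Type*} [Field K] [AddCommGroup V] [Module K V] {H : Type*} [Group H] {H' : Type*} [Group H']

/-- the action of a commuting representation of another group on `HomU` -/
def actM2 (ρ : H →* Module.End K V) (U : Submodule K V) (hU : ∀ g, ∀ v ∈ U, ρ g v ∈ U)
    (τ : H' →* Module.End K V) (hc : ∀ g h, ρ g * τ h = τ h * ρ g) :
    H' →* Module.End K (HomU ρ U hU) where
  toFun h :=
    { toFun := fun f => ⟨(τ h) ∘ₗ f.1, by
        intro g u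
        have h1 := f.2 g u
        have h2 := LinearMap.congr_fun (hc g h) (f.1 u)
        simp only [LinearMap.comp_apply]
        rw [h1]
        exact h2.symm⟩
      map_add' := by intro a b; ext; simp
      map_smul' := by intro c a; ext; simp }
  map_one' := by ext; simp
  map_mul' := by intros; ext; simp

theorem isoU_inv2 (ρ : H →* Module.End K V) (U : Submodule K V) (hU : ∀ g, ∀ v ∈ U, ρ g v ∈ U)
    (τ : H' →* Module.End K V) (hc : ∀ g h, ρ g * τ h = τ h * ρ g)
    (g : H') (v : V) (hv : v ∈ isoU ρ U hU) : τ g v ∈ isoU ρ U hU := by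
  unfold isoU at *
  induction hv using Submodule.span_induction with
  | mem x hx =>
    obtain ⟨f, hf, u, rfl⟩ := hx
    exact Submodule.subset_span ⟨_, (actM2 ρ U hU τ hc g ⟨f, hf⟩).2, u, rfl⟩
  | zero => simp
  | add x y _ _ hx hy => rw [map_add]; exact Submodule.add_mem _ hx hy
  | smul c x _ hx => rw [map_smul]; exact Submodule.smul_mem _ c hx

theorem ns_actM2 (ρ : H →* Module.End K V) (U : Submodule K V) (hU : ∀ g, ∀ v ∈ U, ρ g v ∈ U)
    (τ : H' →* Module.End K V) (hc : ∀ g h, ρ g * τ h = τ h * ρ g)
    (ht : isoU ρ U hU = ⊤) (hns : NS τ) : NS (actM2 ρ U hU τ hc) := by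
  intro N hN
  apply hns N
  intro g hg
  have := hN hg
  rw [MonoidHom.mem_ker] at this ⊢
  apply iso_ext ρ U hU ht
  intro f hf u
  have h2 := congrArg (fun q : HomU ρ U hU => q.1 u) (LinearMap.congr_fun this ⟨f, hf⟩)
  exact h2

end

/-! TARGET: copy the proof of `main`, with one extra commuting representation `σ` of another group
whose restriction to the subgroup `E` is non-solvable; `E` acts trivially in dimension at most 2. -/
theorem main3 {K : Type u} [Field K] [IsAlgClosed K] {H : Type v} [Group H]
    {H' : Type v} [Group H'] (E : Subgroup H') {ι : Type w} [DecidableEq ι]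
    (hE : ∀ (V : Type u) [AddCommGroup V] [Module K V] [FiniteDimensional K V]
      (σ : H' →* Module.End K V), finrank K V ≤ 2 → E ≤ σ.ker) (n : ℕ) :
    ∀ (V : Type u) [AddCommGroup V] [Module K V] [FiniteDimensional K V]
      (ρ : ι → H →* Module.End K V) (σ : H' →* Module.End K V) (s : Finset ι),
      (∀ i j, i ≠ j → ∀ g h, ρ i g * ρ j h = ρ j h * ρ i g) →
      (∀ i g h, ρ i g * σ h = σ h * ρ i g) → (∀ i ∈ s, NS (ρ i)) →
      NS (σ.comp E.subtype) →
      finrank K V ≤ n → 2 * s.card + 3 ≤ finrank K V := by
  have hthree : ∀ (V : Type u) [AddCommGroup V] [Module K V] [FiniteDimensional K V]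
      (σ : H' →* Module.End K V), NS (σ.comp E.subtype) → 3 ≤ finrank K V := by
    intro V _ _ _ σ hns
    by_contra hcon
    apply hns 0
    intro g _
    rw [MonoidHom.mem_ker]
    have h1 := hE V σ (by omega)
    exact h1 g.2
  induction n with
  | zero =>
    intro V _ _ _ ρ σ s hc hcσ hs hσ hn
    have := hthree V σ hσ
    omega
  | succ n ih =>
    intro V _ _ _ ρ σ s hc hcσ hs hσ hn
    classical
    have h3le := hthree V σ hσ
    by_cases hirr : ∀ W : Submodule K V, (∀ i g, ∀ v ∈ W, ρ i g v ∈ W) →
        (∀ g, ∀ v ∈ W, σ g v ∈ W) → W = ⊥ ∨ W = ⊤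
    · rcases s.eq_empty_or_nonempty with hse | ⟨i0, hi0⟩
      · rw [hse]
        simpa using h3le
      have hnt : Nontrivial V := by
        by_contra hcon
        rw [not_nontrivial_iff_subsingleton] at hcon
        apply hs i0 hi0 0
        intro g _
        rw [MonoidHom.mem_ker]
        exact Subsingleton.elim _ _
      obtain ⟨U, hU0, hU, hmin⟩ := exists_min (ρ i0)
      have ht : isoU (ρ i0) U hU = ⊤ := by
        rcases hirr (isoU (ρ i0) U hU) (by
          intro i g v hv
          by_cases hi : i0 = i
          · subst hi; exact isoU_inv _ U hU g v hv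
          · exact isoU_inv' (ρ i0) U hU (ρ i) (hc i0 i hi) g v hv)
          (fun g v hv => isoU_inv2 (ρ i0) U hU σ (hcσ i0) g v hv) with h | h
        · exact absurd h (isoU_ne (ρ i0) U hU hU0)
        · exact h
      by_cases h2 : ∀ u₁ u₂ : U, ¬ LinearIndependent K ![u₁, u₂]
      · exact absurd (hs i0 hi0) (abelian_of_rank_one (ρ i0) U hU ht h2)
      push Not at h2
      obtain ⟨u₁, u₂, hli⟩ := h2
      have hdim := finrank_homU (ρ i0) U hU hU0 hmin u₁ u₂ hli
      -- nonzero dimension of HomU
      have hpos : 0 < finrank K (HomU (ρ i0) U hU) := by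
        rw [Module.finrank_pos_iff]
        refine ⟨⟨U.subtype, by intro g u; rfl⟩, 0, ?_⟩
        intro h
        apply hU0
        rw [eq_bot_iff]
        intro v hv
        have := congrArg (fun q : HomU (ρ i0) U hU => q.1 ⟨v, hv⟩) h
        simpa using this
      let ρ' : ι → H →* Module.End K (HomU (ρ i0) U hU) := fun i =>
        if hi : i0 = i then 1 else actM (ρ i0) U hU (ρ i) (hc i0 i hi)
      have hc' : ∀ i j, i ≠ j → ∀ g h, ρ' i g * ρ' j h = ρ' j h * ρ' i g := by
        intro i j hij g h
        by_cases hi : i0 = i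
        · simp [ρ', hi]
        · by_cases hj : i0 = j
          · simp [ρ', hj]
          · simp only [ρ', hi, hj, dif_neg, not_false_eq_true]
            apply LinearMap.ext
            intro f
            apply Subtype.ext
            apply LinearMap.ext
            intro u
            exact LinearMap.congr_fun (hc i j hij g h) (f.1 u)
      have hs' : ∀ i ∈ s.erase i0, NS (ρ' i) := by
        intro i hi
        rw [Finset.mem_erase] at hi
        have hne : ¬ i0 = i := fun h => hi.1 h.symm
        simp only [ρ', hne, dif_neg, not_false_eq_true]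
        exact ns_actM (ρ i0) U hU (ρ i) (hc i0 i hne) ht (hs i hi.2)
      let σ' : H' →* Module.End K (HomU (ρ i0) U hU) := actM2 (ρ i0) U hU σ (hcσ i0)
      have hcσ' : ∀ i g h, ρ' i g * σ' h = σ' h * ρ' i g := by
        intro i g h
        by_cases hi : i0 = i
        · simp [ρ', hi]
        · simp only [ρ', hi, dif_neg, not_false_eq_true]
          apply LinearMap.ext
          intro f
          apply Subtype.ext
          apply LinearMap.ext
          intro u
          exact LinearMap.congr_fun (hcσ i g h) (f.1 u)
      have hσ' : NS (σ'.comp E.subtype) := by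
        have h4 := ns_actM2 (ρ i0) U hU (σ.comp E.subtype) (fun g h => hcσ i0 g h) ht hσ
        exact h4
      have := ih (HomU (ρ i0) U hU) ρ' σ' (s.erase i0) hc' hcσ' hs' hσ' (by omega)
      rw [Finset.card_erase_of_mem hi0] at this
      have hcard : 1 ≤ s.card := Finset.card_pos.mpr ⟨i0, hi0⟩
      omega
    · push Not at hirr
      obtain ⟨W, hW, hWσ, hb, htop⟩ := hirr
      have hWi : ∀ i, ∀ g, ∀ v ∈ W, ρ i g v ∈ W := fun i g v hv => hW i g v hv
      have hlt : finrank K W < finrank K V := Submodule.finrank_lt htop
      have hq : finrank K (V ⧸ W) + finrank K W = finrank K V := Submodule.finrank_quotient_add_finrank W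
      have hWpos : 0 < finrank K W := by
        rw [Module.finrank_pos_iff]
        exact Submodule.nontrivial_iff_ne_bot.mpr hb
      have cW : ∀ i j, i ≠ j → ∀ g h, (restr (ρ i) W (hWi i)) g * (restr (ρ j) W (hWi j)) h =
          (restr (ρ j) W (hWi j)) h * (restr (ρ i) W (hWi i)) g := by
        intro i j hij g h
        apply LinearMap.ext
        intro v
        apply Subtype.ext
        exact LinearMap.congr_fun (hc i j hij g h) v.1
      have cWσ : ∀ i g h, (restr (ρ i) W (hWi i)) g * (restr σ W hWσ) h =
          (restr σ W hWσ) h * (restr (ρ i) W (hWi i)) g := by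
        intro i g h
        apply LinearMap.ext
        intro v
        apply Subtype.ext
        exact LinearMap.congr_fun (hcσ i g h) v.1
      have cQ : ∀ i j, i ≠ j → ∀ g h, (quo (ρ i) W (hWi i)) g * (quo (ρ j) W (hWi j)) h =
          (quo (ρ j) W (hWi j)) h * (quo (ρ i) W (hWi i)) g := by
        intro i j hij g h
        apply LinearMap.ext
        intro v
        obtain ⟨v, rfl⟩ := Submodule.mkQ_surjective W v
        have := LinearMap.congr_fun (hc i j hij g h) v
        exact congrArg W.mkQ this
      have cQσ : ∀ i g h, (quo (ρ i) W (hWi i)) g * (quo σ W hWσ) h =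
          (quo σ W hWσ) h * (quo (ρ i) W (hWi i)) g := by
        intro i g h
        apply LinearMap.ext
        intro v
        obtain ⟨v, rfl⟩ := Submodule.mkQ_surjective W v
        have := LinearMap.congr_fun (hcσ i g h) v
        exact congrArg W.mkQ this
      have m1 := main (finrank K W) W (fun i => restr (ρ i) W (hWi i)) (s.filter (fun i => NS (restr (ρ i) W (hWi i))))
        cW (by intro i hi; exact (Finset.mem_filter.mp hi).2) le_rfl
      have m2 := main (finrank K (V ⧸ W)) (V ⧸ W) (fun i => quo (ρ i) W (hWi i)) (s.filter (fun i => NS (quo (ρ i) W (hWi i))))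
        cQ (by intro i hi; exact (Finset.mem_filter.mp hi).2) le_rfl
      have h3 : s.card ≤ (s.filter (fun i => NS (restr (ρ i) W (hWi i)))).card +
          (s.filter (fun i => NS (quo (ρ i) W (hWi i)))).card := by
        refine le_trans (Finset.card_le_card ?_) (Finset.card_union_le _ _)
        intro i hi
        rw [Finset.mem_union, Finset.mem_filter, Finset.mem_filter]
        rcases ns_split (ρ i) W (hWi i) (hs i hi) with h | h
        · exact Or.inl ⟨hi, h⟩
        · exact Or.inr ⟨hi, h⟩
      rcases ns_split (σ.comp E.subtype) W (fun g v hv => hWσ g v hv) hσ with h | h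
      · have h1 := ih W (fun i => restr (ρ i) W (hWi i)) (restr σ W hWσ)
          (s.filter (fun i => NS (restr (ρ i) W (hWi i)))) cW cWσ
          (by intro i hi; exact (Finset.mem_filter.mp hi).2) h (by omega)
        omega
      · have h1 := ih (V ⧸ W) (fun i => quo (ρ i) W (hWi i)) (quo σ W hWσ)
          (s.filter (fun i => NS (quo (ρ i) W (hWi i)))) cQ cQσ
          (by intro i hi; exact (Finset.mem_filter.mp hi).2) h (by omega)
        omega


end Pool.Agent.Helper950.BG
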