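import Mathlib
import Pool.Agent.Helper950.BG.Grp

set_option autoImplicit false

namespace Pool.Agent.Helper950.BG.Q7

open Matrix

/-! the action on coloured tuples -/

/-- the quandle operation with a trivial element `none` -/
def op : Option (ZMod 7) → Option (ZMod 7) → Option (ZMod 7)
  | some a, some b => some (2 * b - a)
  | none, y => y
  | some _, none => none

/-- the inverse of `op x` -/
def opi : Option (ZMod 7) → Option (ZMod 7) → Option (ZMod 7)
  | some a, some u => some (4 * (u + a))
  | none, y => y
  | some _, none => none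

theorem op_opi (x y : Option (ZMod 7)) : op x (opi x y) = y := by
  revert x y; decide

theorem opi_op (x y : Option (ZMod 7)) : opi x (op x y) = y := by
  revert x y; decide

theorem op_dist (x y z : Option (ZMod 7)) : op x (op y z) = op (op x y) (op x z) := by
  revert x y z; decide

/-- `σ_i` on tuples: `(x, y) ↦ (x ⊳ y, x)` at the positions `i, i+1` -/
def act (i : ℕ) : Equiv.Perm (ℕ → Option (ZMod 7)) where
  toFun t k := if k = i then op (t i) (t (i + 1)) else if k = i + 1 then t i else t k
  invFun t k := if k = i then t (i + 1) else if k = i + 1 then opi (t (i + 1)) (t i) else t k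
  left_inv := by
    intro t
    funext k
    by_cases h1 : k = i
    · subst h1; simp
    · by_cases h2 : k = i + 1
      · subst h2; simp [opi_op]
      · simp [h1, h2]
  right_inv := by
    intro t
    funext k
    by_cases h1 : k = i
    · subst h1; simp [op_opi]
    · by_cases h2 : k = i + 1
      · subst h2; simp
      · simp [h1, h2]

theorem act_apply (i : ℕ) (t : ℕ → Option (ZMod 7)) (k : ℕ) :
    act i t k = if k = i then op (t i) (t (i + 1)) else if k = i + 1 then t i else t k := rfl

theorem act_braid (i : ℕ) : act i * act (i + 1) * act i = act (i + 1) * act i * act (i + 1) := by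
  apply Equiv.ext
  intro t
  funext k
  show act i (act (i + 1) (act i t)) k = act (i + 1) (act i (act (i + 1) t)) k
  have e1 : (i + 1 + 1 = i) = False := by simp only [eq_iff_iff, iff_false]; omega
  have e2 : (i + 1 = i) = False := by simp
  have e3 : (i = i + 1) = False := by simp
  have e4 : (i = i + 1 + 1) = False := by simp; omega
  have e5 : (i + 1 = i + 1 + 1) = False := by simp
  have e6 : (i + 1 + 1 = i + 1) = False := by simp
  by_cases h1 : k = i
  · subst h1
    simp only [act_apply, if_true, if_false, e1, e2, e3, e4, e5, e6]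
    exact (op_dist _ _ _).symm
  · by_cases h2 : k = i + 1
    · subst h2
      simp only [act_apply, if_true, if_false, e1, e2, e3, e4, e5, e6]
    · by_cases h3 : k = i + 1 + 1
      · subst h3
        simp only [act_apply, if_true, if_false, e1, e2, e3, e4, e5, e6]
      · simp only [act_apply, h1, h2, h3, if_false]

theorem act_far (i j : ℕ) (h : i + 2 ≤ j) : act i * act j = act j * act i := by
  apply Equiv.ext
  intro t
  funext k
  show act i (act j t) k = act j (act i t) k
  have e1 : (i = j) = False := by simp; omega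
  have e2 : (i = j + 1) = False := by simp; omega
  have e3 : (i + 1 = j) = False := by simp; omega
  have e4 : (i + 1 = j + 1) = False := by simp; omega
  have e5 : (j = i) = False := by simp; omega
  have e6 : (j = i + 1) = False := by simp; omega
  have e7 : (j + 1 = i) = False := by simp; omega
  have e8 : (j + 1 = i + 1) = False := by simp; omega
  by_cases h1 : k = i
  · subst h1
    simp only [act_apply, if_true, if_false, e1, e2, e3, e4, e5, e6, e7, e8]
  · by_cases h2 : k = i + 1
    · subst h2
      simp only [act_apply, if_true, if_false, e1, e2, e3, e4, e5, e6, e7, e8]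
    · by_cases h3 : k = j
      · subst h3
        simp only [act_apply, if_true, if_false, e1, e2, e3, e4, e5, e6, e7, e8]
      · by_cases h4 : k = j + 1
        · subst h4
          simp only [act_apply, if_true, if_false, e1, e2, e3, e4, e5, e6, e7, e8]
        · simp only [act_apply, h1, h2, h3, h4, if_false]

theorem act_rels (n : ℕ) : ∀ r ∈ braidRels n, FreeGroup.lift (fun i : Fin (n - 1) => act i) r = 1 := by
  intro r hr
  rcases hr with ⟨i, j, h, rfl⟩ | ⟨i, j, h, rfl⟩
  · have hb := act_braid (i : ℕ)
    simp only [map_mul, map_inv, FreeGroup.lift_apply_of]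
    rw [mul_inv_eq_one, h]
    exact hb
  · have hb := act_far (i : ℕ) (j : ℕ) h
    simp only [map_mul, map_inv, FreeGroup.lift_apply_of]
    rw [mul_inv_eq_one]
    exact hb

/-- the action of `B_n` on tuples -/
def actHom (n : ℕ) : BraidGroup n →* Equiv.Perm (ℕ → Option (ZMod 7)) :=
  PresentedGroup.toGroup (act_rels n)

theorem actHom_sg (n m : ℕ) (hm : m < n - 1) : actHom n (sg n m) = act m := by
  unfold sg actHom
  rw [dif_pos hm]
  exact PresentedGroup.toGroup.of (act_rels n)

theorem op_some (a b : ZMod 7) : op (some a) (some b) = some (2 * b - a) := rfl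

theorem op_none_left (y : Option (ZMod 7)) : op none y = y := by cases y <;> rfl

theorem op_none_right (y : Option (ZMod 7)) : op y none = none := by cases y <;> rfl

theorem jm_fix (n : ℕ) : ∀ m : ℕ, m ≤ n - 1 → ∀ t : ℕ → Option (ZMod 7),
    (∀ i, i < m → t i = none) → actHom n (jm n m) t = t := by
  intro m
  induction m with
  | zero => intro _ t _; simp [jm]
  | succ m ih =>
    intro hm t ht
    have hm' : m < n - 1 := by omega
    have htm : t m = none := ht m (by omega)
    rw [jm, map_mul, map_mul, actHom_sg n m hm', Equiv.Perm.mul_apply, Equiv.Perm.mul_apply]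
    rw [ih (by omega) (act m t) (by
      intro i hi
      rw [act_apply, if_neg (by omega), if_neg (by omega)]
      exact ht i (by omega))]
    funext k
    by_cases h1 : k = m
    · subst h1
      simp [act_apply, htm, op_none_left, op_none_right]
    · by_cases h2 : k = m + 1
      · subst h2
        simp [act_apply, htm, op_none_left, op_none_right]
      · simp [act_apply, h1, h2]


/-- the tuple `(1, …, 1, v 0, v 1, v 2, v 3, 1, …)` with `v 0` at position `m - 1` -/
def tup (m : ℕ) (v : Fin 4 → ZMod 7) : ℕ → Option (ZMod 7) :=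
  fun k => if k + 1 = m then some (v 0) else if k = m then some (v 1)
    else if k = m + 1 then some (v 2) else if k = m + 2 then some (v 3) else none

def mA : Matrix (Fin 4) (Fin 4) (ZMod 7) := !![3,5,0,0; 6,2,0,0; 0,0,1,0; 0,0,0,1]
def mS2 : Matrix (Fin 4) (Fin 4) (ZMod 7) := !![1,0,0,0; 0,6,2,0; 0,1,0,0; 0,0,0,1]
def mS3 : Matrix (Fin 4) (Fin 4) (ZMod 7) := !![1,0,0,0; 0,1,0,0; 0,0,6,2; 0,0,1,0]

theorem mA_mul (v : Fin 4 → ZMod 7) : mA *ᵥ v = ![3 * v 0 + 5 * v 1, 6 * v 0 + 2 * v 1, v 2, v 3] := by
  ext i; fin_cases i <;> simp [mA, Matrix.mulVec, dotProduct, Fin.sum_univ_four]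

theorem mS2_mul (v : Fin 4 → ZMod 7) : mS2 *ᵥ v = ![v 0, 6 * v 1 + 2 * v 2, v 1, v 3] := by
  ext i; fin_cases i <;> simp [mS2, Matrix.mulVec, dotProduct, Fin.sum_univ_four]

theorem mS3_mul (v : Fin 4 → ZMod 7) : mS3 *ᵥ v = ![v 0, v 1, 6 * v 2 + 2 * v 3, v 2] := by
  ext i; fin_cases i <;> simp [mS3, Matrix.mulVec, dotProduct, Fin.sum_univ_four]

theorem e2 (a b : ZMod 7) : 2 * b - a = 6 * a + 2 * b := by
  have : (6 : ZMod 7) = -1 := by decide
  rw [this]; ring

theorem e0 (a b : ZMod 7) : 2 * a - (2 * b - a) = 3 * a + 5 * b := by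
  have : (5 : ZMod 7) = -2 := by decide
  rw [this]; ring

theorem act_sg (n m : ℕ) (hm : m < n - 1) (v : Fin 4 → ZMod 7) :
    actHom n (sg n m) (tup m v) = tup m (mS2 *ᵥ v) := by
  rw [actHom_sg n m hm, mS2_mul]
  funext k
  rw [act_apply]
  by_cases h1 : k = m
  · subst h1
    have e : ¬ k + 1 + 1 = k := by omega
    simp [tup, op_some, e, e2]
  · by_cases h2 : k = m + 1
    · subst h2
      have e : ¬ m + 1 + 1 = m := by omega
      simp [tup, e]
    · simp only [h1, h2, if_false, tup]
      by_cases h3 : k + 1 = m
      · simp [h3]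
      · by_cases h4 : k = m + 2
        · simp [h3, h4]
        · simp [h3, h4]

theorem act_sg1 (n m : ℕ) (hm : m + 1 < n - 1) (v : Fin 4 → ZMod 7) :
    actHom n (sg n (m + 1)) (tup m v) = tup m (mS3 *ᵥ v) := by
  rw [actHom_sg n (m + 1) hm, mS3_mul]
  funext k
  rw [act_apply]
  by_cases h1 : k = m + 1
  · subst h1
    have e : ¬ m + 1 + 1 = m := by omega
    have e' : ¬ m + 1 + 1 + 1 = m := by omega
    simp [tup, op_some, e, e', e2]
  · by_cases h2 : k = m + 1 + 1
    · subst h2
      have e : ¬ m + 1 + 1 = m := by omega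
      have e' : ¬ m + 1 + 1 + 1 = m := by omega
      simp [tup, e, e']
    · simp only [h1, h2, if_false, tup]
      by_cases h3 : k + 1 = m
      · simp [h3]
      · by_cases h4 : k = m
        · simp [h4]
        · simp [h3, h4]

theorem act_jm (n m : ℕ) (hm0 : 1 ≤ m) (hm : m ≤ n - 1) (v : Fin 4 → ZMod 7) :
    actHom n (jm n m) (tup m v) = tup m (mA *ᵥ v) := by
  rw [mA_mul]
  obtain ⟨m, rfl⟩ : ∃ l, m = l + 1 := ⟨m - 1, by omega⟩
  have hm' : m < n - 1 := by omega
  rw [jm, map_mul, map_mul, actHom_sg n m hm', Equiv.Perm.mul_apply, Equiv.Perm.mul_apply]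
  rw [jm_fix n m (by omega) (act m (tup (m + 1) v)) (by
    intro i hi
    rw [act_apply, if_neg (by omega), if_neg (by omega)]
    simp only [tup]
    rw [if_neg (by omega), if_neg (by omega), if_neg (by omega), if_neg (by omega)])]
  funext k
  by_cases h1 : k = m
  · subst h1
    simp [act_apply, tup, op_some]
    linear_combination (e0 (v 0) (v 1))
  · by_cases h2 : k = m + 1
    · subst h2
      simp [act_apply, tup, op_some, e2]
    · simp [act_apply, tup, op_some, h1, h2]

end Pool.Agent.Helper950.BG.Q7
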