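import Mathlib
import Pool.Agent.Helper950.BG.Grp7

set_option autoImplicit false

namespace Pool.Agent.Helper950.BG.Q7

open Matrix
open scoped commutatorElement

/-- `4 × 4` matrices over `ZMod 7` -/
abbrev Mt := Matrix (Fin 4) (Fin 4) (ZMod 7)

def mB : Mt := !![1,0,0,0; 0,3,5,0; 0,6,2,0; 0,0,0,1]
def mC : Mt := !![1,0,0,0; 0,1,0,0; 0,0,3,5; 0,0,6,2]
def mSA : Mt := !![3,5,0,0; 1,5,2,0; 6,2,0,0; 0,0,0,1]
def mJ : Mt := !![3,2,3,0; 1,4,3,0; 6,5,4,0; 0,0,0,1]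
def mZ : Mt := !![0,5,3,0; 6,6,3,0; 6,5,4,0; 0,0,0,1]
def mAi : Mt := !![4,4,0,0; 2,6,0,0; 0,0,1,0; 0,0,0,1]
def mBi : Mt := !![1,0,0,0; 0,4,4,0; 0,2,6,0; 0,0,0,1]
def mCi : Mt := !![1,0,0,0; 0,1,0,0; 0,0,4,4; 0,0,2,6]
def mZi : Mt := !![2,2,4,0; 1,3,4,0; 1,2,5,0; 0,0,0,1]
def mKp : Mt := !![0,5,2,1; 6,6,2,1; 6,5,5,6; 0,0,6,2]
def mKq : Mt := !![2,2,2,2; 1,3,2,2; 1,2,6,6; 0,0,2,6]
def mK : Mt := !![0,5,3,0; 6,6,3,0; 1,2,1,4; 6,5,5,6]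
def mUp : Mt := !![0,5,3,0; 0,4,2,2; 4,3,5,3; 6,5,5,6]
def mU : Mt := !![0,5,3,0; 0,3,3,2; 4,4,4,3; 6,3,0,6]
def mUi : Mt := !![3,2,5,5; 3,3,6,3; 0,2,4,2; 6,0,6,3]
def mWp : Mt := !![3,1,4,0; 6,6,3,0; 0,6,2,0; 0,0,0,1]
def mWq : Mt := !![4,2,2,0; 2,3,3,0; 0,2,6,0; 0,0,0,1]
def mW : Mt := !![0,3,5,0; 1,1,6,0; 5,1,2,0; 0,0,0,1]
def mWi : Mt := !![3,6,6,0; 0,3,5,0; 3,1,4,0; 0,0,0,1]
def mRp : Mt := !![6,1,1,0; 4,6,3,2; 3,6,3,3; 3,0,6,6]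
def mRq : Mt := !![3,1,6,5; 6,5,1,3; 5,3,5,2; 1,0,4,3]
def mR : Mt := !![1,0,0,0; 2,1,4,1; 0,0,2,6; 3,0,2,3]
def mX : Mt := !![1,0,0,0; 0,1,0,0; 4,0,2,2; 5,0,3,0]
def mXi : Mt := !![1,0,0,0; 0,1,0,0; 3,0,0,5; 2,0,4,2]
def mYp : Mt := !![1,0,0,0; 6,3,3,3; 1,6,4,4; 5,0,3,0]
def mY : Mt := !![1,0,0,0; 6,4,2,3; 1,4,6,4; 5,6,4,0]
def mYi : Mt := !![1,0,0,0; 1,5,5,4; 6,3,3,3; 2,1,3,2]
def g1 : Mt := !![1,0,0,0; 5,0,4,6; 2,1,4,1; 3,5,1,6]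
def g2 : Mt := !![1,0,0,0; 1,0,3,4; 2,1,4,1; 4,5,3,3]
def G : Mt := !![1,0,0,0; 3,1,6,5; 3,5,2,5; 3,1,5,6]
def Gi : Mt := !![1,0,0,0; 5,1,3,6; 5,3,1,6; 5,2,1,0]
def g3 : Mt := !![1,0,0,0; 3,1,6,5; 4,5,4,2; 6,1,4,4]
def g4 : Mt := !![1,0,0,0; 5,1,3,6; 3,3,4,5; 6,2,3,4]
def h1 : Mt := !![1,0,0,0; 0,1,0,0; 1,0,3,4; 3,0,6,6]
def h2 : Mt := !![1,0,0,0; 1,5,5,4; 6,6,0,3; 2,3,1,2]
def Hh : Mt := !![1,0,0,0; 6,5,1,3; 0,6,2,0; 2,3,1,2]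
def Hi : Mt := !![1,0,0,0; 2,4,1,1; 1,2,1,4; 6,0,5,4]
def h3 : Mt := !![1,0,0,0; 4,4,5,2; 2,0,5,1; 5,1,2,0]
def h4 : Mt := !![1,0,0,0; 6,6,0,3; 4,0,2,2; 0,4,3,1]

variable {S : Type*} {H : Type*} [Group H]

/-- `h` acts on the family `tu` as `M` -/
def Rep (θ : H →* Equiv.Perm S) (tu : (Fin 4 → ZMod 7) → S) (h : H) (M : Mt) : Prop :=
  ∀ v, θ h (tu v) = tu (M *ᵥ v)

theorem Rep.mul {θ : H →* Equiv.Perm S} {tu : (Fin 4 → ZMod 7) → S} {g h : H} {M N L : Mt}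
    (hg : Rep θ tu g M) (hh : Rep θ tu h N) (e : M * N = L) : Rep θ tu (g * h) L := by
  intro v
  rw [map_mul, Equiv.Perm.mul_apply, hh v, hg, ← e, Matrix.mulVec_mulVec]

theorem Rep.inv {θ : H →* Equiv.Perm S} {tu : (Fin 4 → ZMod 7) → S} {g : H} {M N : Mt}
    (hg : Rep θ tu g M) (e : M * N = 1) : Rep θ tu g⁻¹ N := by
  intro v
  rw [map_inv, Equiv.Perm.inv_eq_iff_eq, hg, Matrix.mulVec_mulVec, e, Matrix.one_mulVec]

theorem Rep.comm {θ : H →* Equiv.Perm S} {tu : (Fin 4 → ZMod 7) → S} {g h : H}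
    {M N M' N' P Q L : Mt} (hg : Rep θ tu g M) (hh : Rep θ tu h N) (hg' : Rep θ tu g⁻¹ M')
    (hh' : Rep θ tu h⁻¹ N') (e1 : M * N = P) (e2 : M' * N' = Q) (e3 : P * Q = L) :
    Rep θ tu ⁅g, h⁆ L := by
  rw [commutatorElement_def, mul_assoc (g * h)]
  exact (hg.mul hh e1).mul (hg'.mul hh' e2) e3

theorem perf (θ : H →* Equiv.Perm S) (tu : (Fin 4 → ZMod 7) → S) (a b : H)
    (ha : Rep θ tu a mX) (hb : Rep θ tu b mY) (N : ℕ) :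
    ∃ a' ∈ derivedSeries H N, ∃ b' ∈ derivedSeries H N, Rep θ tu a' mX ∧ Rep θ tu b' mY := by
  induction N with
  | zero => exact ⟨a, by simp, b, by simp, ha, hb⟩
  | succ N ih =>
    obtain ⟨x, hx, y, hy, rx, ry⟩ := ih
    have rxi : Rep θ tu x⁻¹ mXi := rx.inv (by decide +kernel)
    have ryi : Rep θ tu y⁻¹ mYi := ry.inv (by decide +kernel)
    have rG : Rep θ tu (y * y * x⁻¹ * y) G :=
      ((ry.mul ry (L := g1) (by decide +kernel)).mul rxi (L := g2) (by decide +kernel)).mul ry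
        (by decide +kernel)
    have rGi : Rep θ tu (y * y * x⁻¹ * y)⁻¹ Gi := rG.inv (by decide +kernel)
    have rH : Rep θ tu (x * x * y⁻¹ * x) Hh :=
      ((rx.mul rx (L := h1) (by decide +kernel)).mul ryi (L := h2) (by decide +kernel)).mul rx
        (by decide +kernel)
    have rHi : Rep θ tu (x * x * y⁻¹ * x)⁻¹ Hi := rH.inv (by decide +kernel)
    have rx2 : Rep θ tu (x⁻¹)⁻¹ mX := by rw [inv_inv]; exact rx
    have ry2 : Rep θ tu (y⁻¹)⁻¹ mY := by rw [inv_inv]; exact ry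
    refine ⟨⁅x⁻¹, y * y * x⁻¹ * y⁆, ?_, ⁅y⁻¹, x * x * y⁻¹ * x⁆, ?_, ?_, ?_⟩
    · rw [derivedSeries_succ]
      exact Subgroup.commutator_mem_commutator (inv_mem hx)
        (mul_mem (mul_mem (mul_mem hy hy) (inv_mem hx)) hy)
    · rw [derivedSeries_succ]
      exact Subgroup.commutator_mem_commutator (inv_mem hy)
        (mul_mem (mul_mem (mul_mem hx hx) (inv_mem hy)) hx)
    · exact rxi.comm rG rx2 rGi (P := g3) (Q := g4) (by decide +kernel) (by decide +kernel)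
        (by decide +kernel)
    · exact ryi.comm rH ry2 rHi (P := h3) (Q := h4) (by decide +kernel) (by decide +kernel)
        (by decide +kernel)

theorem not_le_ker (θ : H →* Equiv.Perm S) (tu : (Fin 4 → ZMod 7) → S)
    (htu : Function.Injective tu) (a b : H)
    (ha : Rep θ tu a mX) (hb : Rep θ tu b mY) (N : ℕ) : ¬ derivedSeries H N ≤ θ.ker := by
  intro h
  obtain ⟨x, hx, y, hy, rx, ry⟩ := perf θ tu a b ha hb N
  have h1 := h hx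
  rw [MonoidHom.mem_ker] at h1
  have h2 := rx ![1, 0, 0, 0]
  rw [h1] at h2
  have h3 := htu h2
  revert h3
  decide +kernel

/-- the word `x` -/
def wx (a b z c : H) : H :=
  ⁅b⁻¹ * ⁅z, c⁆ * b, ⁅a, b⁆⁆ * ⁅b⁻¹ * ⁅z, c⁆ * b, ⁅a, b⁆⁆

/-- the word `y` -/
def wy (a b z c : H) : H := b * wx a b z c * b⁻¹

theorem rep_wx {θ : H →* Equiv.Perm S} {tu : (Fin 4 → ZMod 7) → S} {a b z c : H}
    (ra : Rep θ tu a mA) (rb : Rep θ tu b mB) (rz : Rep θ tu z mZ) (rc : Rep θ tu c mC) :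
    Rep θ tu (wx a b z c) mX ∧ Rep θ tu (wy a b z c) mY := by
  have rai : Rep θ tu a⁻¹ mAi := ra.inv (by decide +kernel)
  have rbi : Rep θ tu b⁻¹ mBi := rb.inv (by decide +kernel)
  have rzi : Rep θ tu z⁻¹ mZi := rz.inv (by decide +kernel)
  have rci : Rep θ tu c⁻¹ mCi := rc.inv (by decide +kernel)
  have rK : Rep θ tu ⁅z, c⁆ mK := rz.comm rc rzi rci (P := mKp) (Q := mKq) (by decide +kernel)
    (by decide +kernel) (by decide +kernel)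
  have rU : Rep θ tu (b⁻¹ * ⁅z, c⁆ * b) mU :=
    (rbi.mul rK (L := mUp) (by decide +kernel)).mul rb (by decide +kernel)
  have rUi : Rep θ tu (b⁻¹ * ⁅z, c⁆ * b)⁻¹ mUi := rU.inv (by decide +kernel)
  have rW : Rep θ tu ⁅a, b⁆ mW := ra.comm rb rai rbi (P := mWp) (Q := mWq) (by decide +kernel)
    (by decide +kernel) (by decide +kernel)
  have rWi : Rep θ tu ⁅a, b⁆⁻¹ mWi := rW.inv (by decide +kernel)
  have rR : Rep θ tu ⁅b⁻¹ * ⁅z, c⁆ * b, ⁅a, b⁆⁆ mR := rU.comm rW rUi rWi (P := mRp) (Q := mRq)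
    (by decide +kernel) (by decide +kernel) (by decide +kernel)
  have rX : Rep θ tu (wx a b z c) mX := rR.mul rR (by decide +kernel)
  exact ⟨rX, (rb.mul rX (L := mYp) (by decide +kernel)).mul rbi (by decide +kernel)⟩

theorem wx_mem (a b z c : H) :
    wx a b z c ∈ Subgroup.normalClosure {⁅z, c⁆} ⊓ Subgroup.normalClosure {⁅a, b⁆} := by
  have h1 : ⁅z, c⁆ ∈ Subgroup.normalClosure ({⁅z, c⁆} : Set H) :=
    Subgroup.subset_normalClosure rfl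
  have h2 : ⁅a, b⁆ ∈ Subgroup.normalClosure ({⁅a, b⁆} : Set H) :=
    Subgroup.subset_normalClosure rfl
  have h3 : b⁻¹ * ⁅z, c⁆ * b ∈ Subgroup.normalClosure ({⁅z, c⁆} : Set H) := by
    have := Subgroup.normalClosure_normal.conj_mem _ h1 b⁻¹
    rwa [inv_inv] at this
  have h4 : ⁅b⁻¹ * ⁅z, c⁆ * b, ⁅a, b⁆⁆ ∈
      Subgroup.normalClosure ({⁅z, c⁆} : Set H) ⊓ Subgroup.normalClosure {⁅a, b⁆} := by
    have := Subgroup.commutator_mem_commutator h3 h2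
    exact Subgroup.commutator_le_inf _ _ this
  exact mul_mem h4 h4

theorem wy_mem (a b z c : H) :
    wy a b z c ∈ Subgroup.normalClosure {⁅z, c⁆} ⊓ Subgroup.normalClosure {⁅a, b⁆} := by
  have h := wx_mem a b z c
  exact ⟨Subgroup.normalClosure_normal.conj_mem _ h.1 b,
    Subgroup.normalClosure_normal.conj_mem _ h.2 b⟩

end Pool.Agent.Helper950.BG.Q7
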