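import Mathlib
import Pool.Agent.Helper950.BG.Final
import Pool.Agent.Helper950.BG.LA3
import Pool.Agent.Helper950.BG.Perf7

set_option autoImplicit false

namespace Pool.Agent.Helper950.BG

open Module
open scoped commutatorElement

/-- the pure braids `a, b, z, c` -/
def pa (n m : ℕ) : PureBraidGroup n := ⟨jm n m, jm_pure n _⟩
def pb (n m : ℕ) : PureBraidGroup n := ⟨sg n m ^ 2, sq_pure n _⟩
def pz (n m : ℕ) : PureBraidGroup n := ⟨jm n m, jm_pure n _⟩ * ⟨jm n (m + 1), jm_pure n _⟩
def pc (n m : ℕ) : PureBraidGroup n := ⟨sg n (m + 1) ^ 2, sq_pure n _⟩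

/-- the subgroup generated by `a, b, z, c` -/
def K0 (n m : ℕ) : Subgroup (PureBraidGroup n) :=
  Subgroup.closure {pa n m, pb n m, pz n m, pc n m}

def ka (n m : ℕ) : K0 n m := ⟨pa n m, Subgroup.subset_closure (by simp)⟩
def kb (n m : ℕ) : K0 n m := ⟨pb n m, Subgroup.subset_closure (by simp)⟩
def kz (n m : ℕ) : K0 n m := ⟨pz n m, Subgroup.subset_closure (by simp)⟩
def kc (n m : ℕ) : K0 n m := ⟨pc n m, Subgroup.subset_closure (by simp)⟩

theorem za_comm (n m : ℕ) (hm : m + 1 ≤ n - 1) : kz n m * ka n m = ka n m * kz n m := by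
  have h : Commute (jm n (m + 1)) (jm n m) := jm_jm n (m + 1) hm m (by omega)
  apply Subtype.ext
  apply Subtype.ext
  show (jm n m * jm n (m + 1)) * jm n m = jm n m * (jm n m * jm n (m + 1))
  rw [mul_assoc, h.eq]

theorem zb_comm (n m : ℕ) (hm : m + 1 ≤ n - 1) : kz n m * kb n m = kb n m * kz n m := by
  have h : Commute (jm n (m + 1)) (jm n m) := jm_jm n (m + 1) hm m (by omega)
  have h1 : Commute (jm n m * jm n (m + 1)) (sg n m) := by
    show (jm n m * jm n (m + 1)) * sg n m = sg n m * (jm n m * jm n (m + 1))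
    have h2 : jm n m * jm n (m + 1) = jm n (m + 1) * jm n m := h.eq.symm
    have h3 : jm n (m + 1) = sg n m * jm n m * sg n m := rfl
    calc (jm n m * jm n (m + 1)) * sg n m = (jm n (m + 1) * jm n m) * sg n m := by rw [h2]
      _ = sg n m * (jm n m * (sg n m * jm n m * sg n m)) := by rw [h3]; simp only [mul_assoc]
      _ = sg n m * (jm n m * jm n (m + 1)) := by rw [← h3]
  apply Subtype.ext
  apply Subtype.ext
  show (jm n m * jm n (m + 1)) * sg n m ^ 2 = sg n m ^ 2 * (jm n m * jm n (m + 1))
  exact (h1.pow_right 2).eq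

/-- the relations between the `j`-th free subgroup and `a, b, z, c` -/
theorem phi_K0 (n m j : ℕ) (hj : 2 * j + 3 ≤ m) (hm : m + 1 ≤ n - 1) (g : FreeGroup (Fin 2))
    (k : PureBraidGroup n) (hk : k ∈ K0 n m) : Commute (phi n j g) k := by
  have e1 : Commute (jm n m) (jm n (2 * j + 1)) := jm_jm n _ (by omega) _ (by omega)
  have e1' : Commute (jm n (m + 1)) (jm n (2 * j + 1)) := jm_jm n _ hm _ (by omega)
  have e2 : Commute (jm n m) (sg n (2 * j + 1)) := jm_comm n _ _ (by omega) (by omega)
  have e2' : Commute (jm n (m + 1)) (sg n (2 * j + 1)) := jm_comm n _ _ hm (by omega)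
  have e3 : Commute (jm n (2 * j + 1)) (sg n m) := jm_far n _ _ (by omega)
  have e3' : Commute (jm n (2 * j + 1)) (sg n (m + 1)) := jm_far n _ _ (by omega)
  have e4 : Commute (sg n (2 * j + 1)) (sg n m) := sg_far n _ _ (by omega)
  have e4' : Commute (sg n (2 * j + 1)) (sg n (m + 1)) := sg_far n _ _ (by omega)
  have key : ∀ p : PureBraidGroup n, (∀ a, Commute (gen n j a) p) → Commute (phi n j g) p := by
    intro p hp
    have := lift_comm (gen n j) (fun _ : Unit => p) (fun a _ => hp a) g (FreeGroup.of ())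
    rw [FreeGroup.lift_apply_of] at this
    exact this
  have hle : K0 n m ≤ Subgroup.centralizer {phi n j g} := by
    rw [K0, Subgroup.closure_le]
    intro p hp
    rw [SetLike.mem_coe, Subgroup.mem_centralizer_singleton_iff]
    suffices h : Commute (phi n j g) p from h.eq.symm
    simp only [Set.mem_insert_iff, Set.mem_singleton_iff] at hp
    apply key
    intro a
    rcases hp with rfl | rfl | rfl | rfl
    · have : Commute ((gen n j a : PureBraidGroup n) : BraidGroup n) (pa n m : PureBraidGroup n) := by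
        fin_cases a
        · exact e1.symm
        · exact (e2.pow_right 2).symm
      exact Subtype.ext this
    · have : Commute ((gen n j a : PureBraidGroup n) : BraidGroup n) (pb n m : PureBraidGroup n) := by
        fin_cases a
        · exact e3.pow_right 2
        · exact e4.pow_pow 2 2
      exact Subtype.ext this
    · have : Commute ((gen n j a : PureBraidGroup n) : BraidGroup n) (pz n m : PureBraidGroup n) := by
        fin_cases a
        · exact (e1.symm).mul_right e1'.symm
        · exact ((e2.pow_right 2).symm).mul_right (e2'.pow_right 2).symm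
      exact Subtype.ext this
    · have : Commute ((gen n j a : PureBraidGroup n) : BraidGroup n) (pc n m : PureBraidGroup n) := by
        fin_cases a
        · exact e3'.pow_right 2
        · exact e4'.pow_pow 2 2
      exact Subtype.ext this
  have := hle hk
  rw [Subgroup.mem_centralizer_singleton_iff] at this
  exact this.symm

/-- the subgroup of `K0` acting trivially in dimension at most two -/
def E0 (n m : ℕ) : Subgroup (K0 n m) :=
  Subgroup.normalClosure {⁅kz n m, kc n m⁆} ⊓ Subgroup.normalClosure {⁅ka n m, kb n m⁆}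

/-- the action of `K0` on tuples -/
def theta (n m : ℕ) : K0 n m →* Equiv.Perm (ℕ → Option (ZMod 7)) :=
  (Q7.actHom n).comp ((PureBraidGroup n).subtype.comp (K0 n m).subtype)

theorem tup7_inj (m : ℕ) (hm : 1 ≤ m) : Function.Injective (Q7.tup m) := by
  intro v w h
  have h0 := congrFun h (m - 1)
  have h1 := congrFun h m
  have h2 := congrFun h (m + 1)
  have h3 := congrFun h (m + 2)
  simp only [Q7.tup] at h0 h1 h2 h3
  rw [if_pos (by omega), if_pos (by omega)] at h0
  rw [if_neg (by omega), if_pos trivial, if_neg (by omega), if_pos trivial] at h1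
  rw [if_neg (by omega), if_neg (by omega), if_pos trivial, if_neg (by omega), if_neg (by omega), if_pos trivial] at h2
  rw [if_neg (by omega), if_neg (by omega), if_neg (by omega), if_pos trivial, if_neg (by omega), if_neg (by omega), if_neg (by omega), if_pos trivial] at h3
  simp only [Option.some.injEq] at h0 h1 h2 h3
  funext i
  fin_cases i
  · exact h0
  · exact h1
  · exact h2
  · exact h3

theorem reps (n m : ℕ) (hm0 : 1 ≤ m) (hm : m + 1 < n - 1) :
    Q7.Rep (theta n m) (Q7.tup m) (ka n m) Q7.mA ∧ Q7.Rep (theta n m) (Q7.tup m) (kb n m) Q7.mB ∧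
    Q7.Rep (theta n m) (Q7.tup m) (kz n m) Q7.mZ ∧ Q7.Rep (theta n m) (Q7.tup m) (kc n m) Q7.mC := by
  have rJ : Q7.Rep (Q7.actHom n) (Q7.tup m) (jm n m) Q7.mA :=
    fun v => Q7.act_jm n m hm0 (by omega) v
  have rS : Q7.Rep (Q7.actHom n) (Q7.tup m) (sg n m) Q7.mS2 :=
    fun v => Q7.act_sg n m (by omega) v
  have rT : Q7.Rep (Q7.actHom n) (Q7.tup m) (sg n (m + 1)) Q7.mS3 :=
    fun v => Q7.act_sg1 n m hm v
  have rB : Q7.Rep (Q7.actHom n) (Q7.tup m) (sg n m ^ 2) Q7.mB := by
    rw [pow_two]; exact rS.mul rS (by decide +kernel)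
  have rC : Q7.Rep (Q7.actHom n) (Q7.tup m) (sg n (m + 1) ^ 2) Q7.mC := by
    rw [pow_two]; exact rT.mul rT (by decide +kernel)
  have rZ : Q7.Rep (Q7.actHom n) (Q7.tup m) (jm n m * jm n (m + 1)) Q7.mZ :=
    rJ.mul ((rS.mul rJ (L := Q7.mSA) (by decide +kernel)).mul rS (L := Q7.mJ) (by decide +kernel))
      (by decide +kernel)
  exact ⟨rJ, rB, rZ, rC⟩

theorem K0_ns (n m : ℕ) (hm0 : 1 ≤ m) (hm : m + 1 < n - 1) {M : Type*} [Monoid M]
    (F : PureBraidGroup n →* M) (hF : Function.Injective F) :
    NS ((F.comp (K0 n m).subtype).comp (E0 n m).subtype) := by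
  intro N hN
  obtain ⟨ra, rb, rz, rc⟩ := reps n m hm0 hm
  obtain ⟨rX, rY⟩ := Q7.rep_wx ra rb rz rc
  refine Q7.not_le_ker ((theta n m).comp (E0 n m).subtype) (Q7.tup m) (tup7_inj m hm0)
    ⟨Q7.wx (ka n m) (kb n m) (kz n m) (kc n m), Q7.wx_mem _ _ _ _⟩
    ⟨Q7.wy (ka n m) (kb n m) (kz n m) (kc n m), Q7.wy_mem _ _ _ _⟩ rX rY N ?_
  intro g hg
  have h1 := hN hg
  rw [MonoidHom.mem_ker, MonoidHom.comp_apply, MonoidHom.comp_apply] at h1
  have h2 : (K0 n m).subtype ((E0 n m).subtype g) = 1 := hF (by rw [h1, map_one])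
  rw [MonoidHom.mem_ker, MonoidHom.comp_apply, theta, MonoidHom.comp_apply, MonoidHom.comp_apply,
    h2, map_one, map_one]

universe u

theorem lower_even (k d : ℕ) (K : Type u) [Field K]
    (f : PureBraidGroup (2 * k + 4) →* Matrix.GeneralLinearGroup (Fin d) K)
    (hf : Function.Injective f) : 2 * k + 3 ≤ d := by
  have hFi : Function.Injective ((glEnd d K).comp f) := by
    rw [MonoidHom.coe_comp]
    exact (glEnd_inj d K).comp hf
  have h := main3 (K := AlgebraicClosure K) (H := FreeGroup (Fin 2)) (H' := K0 (2 * k + 4) (2 * k + 1))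
    (E0 (2 * k + 4) (2 * k + 1)) (ι := Fin k)
    (by
      intro V _ _ _ σ hV
      refine small_dim σ hV (ka _ _) (kb _ _) (kz _ _) (kc _ _) ?_ ?_
      · rw [← map_mul, ← map_mul, za_comm _ _ (by omega)]
      · rw [← map_mul, ← map_mul, zb_comm _ _ (by omega)])
    d (Fin d → AlgebraicClosure K)
    (fun j => ((glEnd d K).comp f).comp (phi (2 * k + 4) j))
    (((glEnd d K).comp f).comp (K0 (2 * k + 4) (2 * k + 1)).subtype) Finset.univ
    (by
      intro i j hij g h
      have := phi_comm (2 * k + 4) i j (fun h => hij (Fin.ext h)) (by omega) (by omega) g h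
      simp only [MonoidHom.comp_apply]
      rw [← map_mul, ← map_mul, this.eq, map_mul, map_mul])
    (by
      intro i g h
      have := phi_K0 (2 * k + 4) (2 * k + 1) i (by omega) (by omega) g h.1 h.2
      simp only [MonoidHom.comp_apply, Subgroup.subtype_apply]
      rw [← map_mul, ← map_mul, this.eq, map_mul, map_mul])
    (by
      intro j _
      exact phi_ns (2 * k + 4) j (by omega) _ hFi)
    (K0_ns (2 * k + 4) (2 * k + 1) (by omega) (by omega) _ hFi)
    (by simp)
  simpa using h

theorem lower_all (n d : ℕ) (K : Type u) [Field K]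
    (f : PureBraidGroup n →* Matrix.GeneralLinearGroup (Fin d) K) (hf : Function.Injective f)
    (h3 : 3 ≤ n) : n - 1 ≤ d := by
  rcases Nat.even_or_odd' n with ⟨c, rfl | rfl⟩
  · obtain ⟨k, rfl⟩ : ∃ k, c = k + 2 := ⟨c - 2, by omega⟩
    have := lower_even k d K f hf
    omega
  · have := lower_pure _ d K f hf
    omega

theorem lower_two (d : ℕ) (K : Type u) [Field K]
    (f : PureBraidGroup 2 →* Matrix.GeneralLinearGroup (Fin d) K) (hf : Function.Injective f) :
    1 ≤ d := by
  by_contra hd
  obtain rfl : d = 0 := by omega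
  have h1 : pb 2 0 = 1 := hf (Subsingleton.elim _ _)
  have h2 : (sg 2 0 ^ 2 : BraidGroup 2) = 1 := congrArg Subtype.val h1
  have h3 := act_sq 2 0 (by norm_num) (0, 1, 0)
  rw [h2, map_one, Equiv.Perm.one_apply] at h3
  have h4 := congrFun h3 0
  revert h4
  decide

/-- lower bound for the pure braid group, all `n` -/
theorem lower_pure_all (n d : ℕ) (K : Type u) [Field K]
    (f : PureBraidGroup n →* Matrix.GeneralLinearGroup (Fin d) K) (hf : Function.Injective f) :
    n - 1 ≤ d := by
  rcases Nat.lt_or_ge n 3 with h | h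
  · interval_cases n
    · omega
    · omega
    · exact lower_two d K f hf
  · exact lower_all n d K f hf h

end Pool.Agent.Helper950.BG
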